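import Pool.Agent.H3.S2.Defs
import Pool.Agent.H17.SD.Targets2

/-!
# MP_70ba79_ag, THEOREM S, part 2: targets for CRQ (from the geometry to the data)
-/

set_option autoImplicit false

namespace Pool.Agent.H3.S2

open MvPolynomial SC Pool.Agent.H27.LV
open Pool.Agent.H84.SM (dp cr dt)
open Pool.Agent.H92.SF
open Pool.Agent.H3.SF
open Pool.Agent.H17.SD (PA HRel Prj)

section

variable {k F σ : Type} [Field k] [Field F] [Algebra k F]

/-- minors of the gradients of `f i` and `G` -/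
noncomputable def Mnr {r : ℕ} (G : MvPolynomial σ k) (f : Fin r → MvPolynomial σ k)
    (q : Fin (r + 1) → σ) : MvPolynomial σ k :=
  (Matrix.of fun i j => pderiv (q j) ((Fin.snoc f G : Fin (r + 1) → MvPolynomial σ k) i)).det

/-- the Jacobian ideal of the curve `G = 0` on the surface -/
noncomputable def JcI (X : σ → F) (r : ℕ) (G : MvPolynomial σ k) : Ideal (MvPolynomial σ k) :=
  Ideal.span ({f | aeval X f = 0} ∪ {G} ∪
    {g | ∃ (f : Fin r → MvPolynomial σ k) (q : Fin (r + 1) → σ), (∀ i, aeval X (f i) = 0) ∧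
      g = Mnr G f q})

end

/-- NKD: at a node the Jacobian ideal is the ideal of the line through the node -/
def T_NKD : Prop := ∀ (k F σ : Type) [Field k] [CharZero k] [Field F] [Algebra k F] [Fintype σ]
  (X : σ → F) (r : ℕ), Fintype.card σ = r + 3 →
  (∀ (f : Fin (r + 1) → MvPolynomial σ k), (∀ i, aeval X (f i) = 0) → ∀ q : Fin (r + 1) → σ,
    aeval X (Matrix.of fun i j => pderiv (q j) (f i)).det = 0) → HRel k X →
  ∀ (m : ℕ) (G : MvPolynomial σ k), G.IsHomogeneous m → ∀ s : σ → k, s ≠ 0 →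
  (∀ f : MvPolynomial σ k, aeval X f = 0 → eval s f = 0) → eval s G = 0 → Nod X G s →
  (∀ (f : Fin r → MvPolynomial σ k) (q : Fin (r + 1) → σ), (∀ i, aeval X (f i) = 0) →
    eval s (Mnr G f q) = 0) ∧
  ∃ h : MvPolynomial σ k, eval s h ≠ 0 ∧ ∀ p : MvPolynomial σ k,
    (∀ t : k, eval (t • s) p = 0) → h * p ∈ JcI X r G

/-- CQA: the certificate, the coefficients are polynomials in the `X s` -/
def T_CQA : Prop := ∀ (k F σ : Type) [Field k] [IsAlgClosed k] [CharZero k] [Field F] [Algebra k F]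
  [Fintype σ] (X : σ → F) (u : Fin 3 → F) (dd : Fin 3 → Derivation k F F) (m : ℕ)
  (G : MvPolynomial σ k), Algebra.trdeg k F = 3 → HRel k X → AlgebraicIndependent k u →
  (∀ l, u l ∈ Submodule.span k (Set.range X)) → (∀ s, Itg k u (X s)) →
  (∀ l j, dd l (u j) = if l = j then 1 else 0) → (∀ s, eu u dd (X s) = X s) → 1 ≤ m →
  G.IsHomogeneous m → ∀ (s : ℕ) (Q : MvPolynomial σ k), Q.IsHomogeneous s → Ndq X G Q →
  ∃ c : ℕ, ∀ i, ∃ e : Fin 3 → F, (∀ l, e l ∈ PA k X) ∧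
    aeval X Q * u i ^ c = ∑ l, e l * dd l (aeval X G)

/-- CQB: the certificate with homogeneous coefficients -/
def T_CQB : Prop := ∀ (k F σ : Type) [Field k] [IsAlgClosed k] [CharZero k] [Field F] [Algebra k F]
  [Fintype σ] (X : σ → F) (u : Fin 3 → F) (dd : Fin 3 → Derivation k F F) (m : ℕ)
  (G : MvPolynomial σ k), Algebra.trdeg k F = 3 → HRel k X → AlgebraicIndependent k u →
  (∀ l, u l ∈ Submodule.span k (Set.range X)) → (∀ s, Itg k u (X s)) →
  (∀ l j, dd l (u j) = if l = j then 1 else 0) → (∀ l j a, dd l (dd j a) = dd j (dd l a)) →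
  (∀ s, eu u dd (X s) = X s) → 1 ≤ m → G.IsHomogeneous m →
  ∀ (s : ℕ) (Q : MvPolynomial σ k), Q.IsHomogeneous s → Ndq X G Q →
  ∃ c : ℕ, ∀ i, ∃ e : Fin 3 → F,
    (∀ l, e l ∈ PA k X ∧ Itg k u (e l) ∧ Hm k (eu u dd) ((c : ℤ) + 1 + s - m) (e l)) ∧
    aeval X Q * u i ^ c = ∑ l, e l * dd l (aeval X G)

/-- RDA: local reducedness: `P` is the ideal of a component of the curve, `s` a smooth point -/
def T_RDA : Prop := ∀ (k F σ : Type) [Field k] [IsAlgClosed k] [CharZero k] [Field F]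
  [Algebra k F] [Fintype σ] [DecidableEq σ] (X : σ → F) (u : Fin 3 → F)
  (dd : Fin 3 → Derivation k F F) (δ j0 c0 : ℕ) (J : MvPolynomial (Fin 3) k),
  Sfc u dd δ j0 c0 J → Pool.Agent.H84.SF.Cor X u dd J → ∀ (m : ℕ) (G : MvPolynomial σ k), 1 ≤ m →
  G.IsHomogeneous m → aeval X G ≠ 0 → ∀ s : σ → k, s ≠ 0 → Pool.Agent.H84.SF.Cone X s →
  eval s G = 0 → Module.finrank k (Pool.Agent.H84.SF.Tng X s G) ≤ 2 →
  ∀ P : Ideal (MvPolynomial σ k), P.IsPrime → (∀ f, aeval X f = 0 → f ∈ P) → G ∈ P →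
  (∀ f ∈ P, eval s f = 0) →
  (∃ l : MvPolynomial σ k, l.IsHomogeneous 1 ∧ eval s l = 0 ∧ l ∉ P) →
  ∀ (a : F) (t : ℕ), Itg k u a → Hm k (eu u dd) t a → Itg k u (a * a / aeval X G) →
  ∃ q : MvPolynomial σ k, q ∉ P ∧ Itg k u (aeval X q * (a / aeval X G))

/-- RDB: the curve is reduced -/
def T_RDB : Prop := ∀ (k F σ : Type) [Field k] [IsAlgClosed k] [CharZero k] [Field F]
  [Algebra k F] [Fintype σ] [DecidableEq σ] (X : σ → F) (u : Fin 3 → F)
  (dd : Fin 3 → Derivation k F F) (δ j0 c0 : ℕ) (J : MvPolynomial (Fin 3) k),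
  Sfc u dd δ j0 c0 J → Pool.Agent.H84.SF.Cor X u dd J → Algebra.trdeg k F = 3 → HRel k X →
  ∀ (m : ℕ) (G : MvPolynomial σ k), 1 ≤ m → G.IsHomogeneous m → aeval X G ≠ 0 → Ndl X G →
  ∀ (a : F) (t : ℕ), Itg k u a → Hm k (eu u dd) t a → Itg k u (a * a / aeval X G) →
  Itg k u (a / aeval X G)

/-- RDC: from homogeneous elements to all elements -/
def T_RDC : Prop := ∀ (k F : Type) [Field k] [IsAlgClosed k] [CharZero k] [Field F] [Algebra k F]
  (u : Fin 3 → F) (dd : Fin 3 → Derivation k F F) (δ j0 c0 : ℕ) (J : MvPolynomial (Fin 3) k),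
  Sfc u dd δ j0 c0 J → ∀ (m : ℕ) (G : F), G ≠ 0 → Itg k u G → Hm k (eu u dd) m G →
  (∀ (a : F) (t : ℕ), Itg k u a → Hm k (eu u dd) t a → Itg k u (a * a / G) → Itg k u (a / G)) →
  ∀ a : F, Itg k u a → Itg k u (a * a / G) → Itg k u (a / G)

end Pool.Agent.H3.S2
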