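import Pool.Agent.H3.S2.Defs

/-!
# MP_70ba79_ag, THEOREM S, part 2: forms which vanish at few points
-/

set_option autoImplicit false

namespace Pool.Agent.H3.S2

open MvPolynomial

/-- QEX: there is a form of degree `2 a` which vanishes at given points, fewer than `(a + 1) ^ 2` -/
theorem qex {k F σ : Type} [Field k] [Field F] [Algebra k F] (X : σ → F) (u : Fin 3 → F)
    (hu : AlgebraicIndependent k u) (hU : ∀ l, ∃ U : MvPolynomial σ k, U.IsHomogeneous 1 ∧
      aeval X U = u l) (T : Finset (σ → k)) (a : ℕ) (hT : T.card < (a + 1) ^ 2) :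
    ∃ Q : MvPolynomial σ k, Q.IsHomogeneous (2 * a) ∧ aeval X Q ≠ 0 ∧
      ∀ s ∈ T, ∀ t : k, eval (t • s) Q = 0 := by
  classical
  choose U hU1 hU using hU
  -- the exponents
  obtain ⟨E, hE⟩ : ∃ E : Fin (a + 1) × Fin (a + 1) → Fin 3 →₀ ℕ, E = fun i =>
      Finsupp.equivFunOnFinite.symm ![(i.1 : ℕ), (i.2 : ℕ), 2 * a - i.1 - i.2] := ⟨_, rfl⟩
  have hE0 : ∀ i, E i 0 = i.1 := fun i => by rw [hE]; rfl
  have hE1 : ∀ i, E i 1 = i.2 := fun i => by rw [hE]; rfl
  have hE2 : ∀ i, E i 2 = 2 * a - i.1 - i.2 := fun i => by rw [hE]; rfl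
  have hEi : Function.Injective E := by
    intro i j hij
    have h0 : (i.1 : ℕ) = j.1 := by rw [← hE0, ← hE0, hij]
    have h1 : (i.2 : ℕ) = j.2 := by rw [← hE1, ← hE1, hij]
    exact Prod.ext (Fin.ext h0) (Fin.ext h1)
  obtain ⟨P, hP⟩ : ∃ P : (Fin (a + 1) × Fin (a + 1) → k) → MvPolynomial (Fin 3) k,
      P = fun c => ∑ i, monomial (E i) (c i) := ⟨_, rfl⟩
  have hPh : ∀ c, (P c).IsHomogeneous (2 * a) := by
    intro c
    rw [hP]
    refine IsHomogeneous.sum _ _ _ fun i _ => ?_
    refine isHomogeneous_monomial _ ?_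
    rw [Finsupp.degree_eq_sum, Fin.sum_univ_three, hE0, hE1, hE2]
    have := i.1.2
    have := i.2.2
    omega
  -- the linear map
  obtain ⟨L, hL⟩ : ∃ L : (Fin (a + 1) × Fin (a + 1) → k) →ₗ[k] (T → k),
      ∀ c t, L c t = eval (fun l => eval (t : σ → k) (U l)) (P c) := by
    refine ⟨{ toFun := fun c t => eval (fun l => eval (t : σ → k) (U l)) (P c)
              map_add' := ?_, map_smul' := ?_ }, fun c t => rfl⟩
    · intro c d
      funext t
      rw [hP]
      simp only [Pi.add_apply, map_add, Finset.sum_add_distrib]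
    · intro r c
      funext t
      rw [hP]
      simp only [Pi.smul_apply, smul_eq_mul, RingHom.id_apply, map_sum, Finset.mul_sum]
      refine Finset.sum_congr rfl fun i _ => ?_
      rw [← smul_eq_mul r (c i), ← smul_monomial, smul_eval]
  have hker : LinearMap.ker L ≠ ⊥ := by
    refine LinearMap.ker_ne_bot_of_finrank_lt ?_
    rw [Module.finrank_fintype_fun_eq_card, Module.finrank_fintype_fun_eq_card, Fintype.card_coe,
      Fintype.card_prod, Fintype.card_fin]
    rwa [pow_two] at hT
  obtain ⟨c, hc, hc0⟩ := Submodule.exists_mem_ne_zero_of_ne_bot hker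
  have hP0 : P c ≠ 0 := by
    intro h0
    apply hc0
    funext i
    have h1 : (P c).coeff (E i) = c i := by
      rw [hP]
      simp only [coeff_sum, coeff_monomial]
      rw [Finset.sum_eq_single i]
      · rw [if_pos rfl]
      · intro j _ hj
        rw [if_neg fun h => hj (hEi h)]
      · intro h
        exact absurd (Finset.mem_univ i) h
    rw [← h1, h0, coeff_zero]
    rfl
  have hQh : (aeval U (P c)).IsHomogeneous (2 * a) := by
    have h1 := (hPh c).aeval U hU1
    rwa [one_mul] at h1
  refine ⟨aeval U (P c), hQh, ?_, ?_⟩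
  · have h1 : aeval X (aeval U (P c)) = aeval u (P c) := by
      rw [← AlgHom.comp_apply]
      congr 1
      refine MvPolynomial.algHom_ext fun l => ?_
      rw [AlgHom.comp_apply, aeval_X, aeval_X, hU]
    rw [h1]
    intro h2
    exact hP0 ((injective_iff_map_eq_zero _).1 hu _ h2)
  · intro s hs t
    have h1 : eval (t • s) (aeval U (P c)) = t ^ (2 * a) * eval s (aeval U (P c)) := by
      rw [eval_eq, eval_eq, Finset.mul_sum]
      refine Finset.sum_congr rfl fun d hd => ?_
      have h2 := hQh (mem_support_iff.1 hd)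
      rw [Finsupp.weight_apply, Finsupp.sum] at h2
      simp only [Pi.one_apply, smul_eq_mul, mul_one] at h2
      simp only [Pi.smul_apply, smul_eq_mul, mul_pow, Finset.prod_mul_distrib,
        Finset.prod_pow_eq_pow_sum]
      rw [h2]
      ring
    have h2 : eval s (aeval U (P c)) = 0 := by
      have h3 := congrFun (LinearMap.mem_ker.1 hc) ⟨s, hs⟩
      rw [hL] at h3
      have h4 : eval s (aeval U (P c)) = eval (fun l => eval s (U l)) (P c) := by
        have h5 : (aeval s : MvPolynomial σ k →ₐ[k] k).comp (aeval U) =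
            aeval (fun l => eval s (U l)) := by
          refine MvPolynomial.algHom_ext fun l => ?_
          rw [AlgHom.comp_apply, aeval_X, aeval_X]
          rfl
        exact DFunLike.congr_fun h5 (P c)
      rw [h4]
      exact h3
    rw [h1, h2, mul_zero]

end Pool.Agent.H3.S2
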