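import Pool.Agent.H3.S2.Defs

/-!
# MP_70ba79_ag, THEOREM S, part 2: targets
-/

set_option autoImplicit false

namespace Pool.Agent.H3.S2

open MvPolynomial SC Pool.Agent.H27.LV
open Pool.Agent.H84.SM (dp cr dt)
open Pool.Agent.H92.SF
open Pool.Agent.H3.SF

/-- SFW: the form `G` -/
def T_SFW : Prop := ∀ (k F : Type) [Field k] [IsAlgClosed k] [CharZero k] [Field F] [Algebra k F]
  (u : Fin 3 → F) (dd : Fin 3 → Derivation k F F) (δ j0 c0 : ℕ) (J : MvPolynomial (Fin 3) k),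
  Sfc u dd δ j0 c0 J → ∀ (m : ℕ) (G : F), Crw u dd m G →
  Dat m u (grd dd G) G (hes dd G) ∧ (∀ l, Itg k u (aeval u J * dd l G)) ∧
  (∀ i j, Itg k u (aeval u J ^ 3 * dd i (dd j G))) ∧
  (∀ (t : ℤ) (a : F), a ≠ 0 → Itg k u a → Hm k (eu u dd) t a → Itg k u (a / G) → (m : ℤ) ≤ t) ∧
  True ∧
  (1 ≤ m → ∃ N : MvPolynomial (Fin 3) k, N ≠ 0 ∧ N.IsHomogeneous (δ * m) ∧
    Itg k u (aeval u N / G))

/-- CN1 with a form `G` -/
def T_CNA : Prop := ∀ (k F : Type) [Field k] [IsAlgClosed k] [CharZero k] [Field F] [Algebra k F]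
  (u : Fin 3 → F) (dd : Fin 3 → Derivation k F F) (δ j0 c0 : ℕ) (J : MvPolynomial (Fin 3) k),
  Sfc u dd δ j0 c0 J → ∀ (m : ℕ) (G : F), 1 ≤ m → Crw u dd m G → ∀ P : Q2 F,
  P.coeff 1 = 1 → Tw u dd 3 3 P → ∃ b : MvPolynomial (Fin 3) F, Cub u dd b ∧
  Ps u dd J m G P = cc (m * G) * zv + Polynomial.C (bet u dd J G b) ∧
  ∀ (K : Type) [Field K] [Algebra k K] (φ : Bb k u →ₐ[k] K) (D : Derivation k K K)
    (x : Fin 3 → K) (W : Q2 K) (A : MvPolynomial (Fin 3) k) (b0 : MvPolynomial (Fin 3) (Bb k u)),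
    (∀ (i : Fin 3) (b : Bb k u), (b : F) = u i → φ b = x i) → VQ u φ P W →
    map ((Bb k u).val : Bb k u →+* F) b0 = C (aeval u A) * b →
    aeval x A * evc D x W = aeval x A * dt x (fun i => D (x i)) (fun i => D (D (x i))) +
      eval₂ (φ : Bb k u →+* K) (fun i => D (x i)) b0

/-- CNI with a form `G` -/
def T_CNB : Prop := ∀ (k F : Type) [Field k] [IsAlgClosed k] [CharZero k] [Field F] [Algebra k F]
  (u : Fin 3 → F) (dd : Fin 3 → Derivation k F F) (δ j0 c0 : ℕ) (J : MvPolynomial (Fin 3) k),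
  Sfc u dd δ j0 c0 J → ∀ (m : ℕ) (G : F), 1 ≤ m → Crw u dd m G →
  ∀ b : MvPolynomial (Fin 3) F, Cub u dd b →
  aeval (fun i => - cr (fun j => C (u j)) X i : Fin 3 → MvPolynomial (Fin 3) F)
    (bet u dd J G b) = C (aeval u J ^ 6 * (m : F) ^ 3 * G ^ 3) * b

/-- CNS with a form `G` -/
def T_CNC : Prop := ∀ (k F : Type) [Field k] [IsAlgClosed k] [CharZero k] [Field F] [Algebra k F]
  (u : Fin 3 → F) (dd : Fin 3 → Derivation k F F) (δ j0 c0 : ℕ) (J : MvPolynomial (Fin 3) k),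
  Sfc u dd δ j0 c0 J → ∀ (m : ℕ) (G : F), 1 ≤ m → Crw u dd m G →
  ∀ b : MvPolynomial (Fin 3) F, Cub u dd b →
  (∀ (R : Type) [CommRing R] [Algebra F R] (ρ : Fin 3 → R) (c : R),
    aeval (fun i => ρ i + c * algebraMap F R (dd i G)) (bet u dd J G b) =
    aeval ρ (bet u dd J G b) - c * algebraMap F R (m * G * aeval u J ^ 6) *
      hq (fun i j => algebraMap F R (hes dd G i j)) (cr (fun i => algebraMap F R (dd i G)) ρ)
        (cr (fun i => algebraMap F R (dd i G)) ρ)) ∧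
  ∀ e : Fin 3 → F, ∑ i, dd i G * e i = 1 →
    C (m * G * aeval u J ^ 6) * aeval (gx dd G) (∑ i, C (e i) * pderiv i b) =
      - ∑ i, C (cr u e i) * pderiv i (bet u dd J G b) +
        C (2 * m * G * aeval u J ^ 6) * hq (fun i j => C (hes dd G i j)) (gx dd G)
          (fun i => C (e i)) * dp (fun i => C (u i)) X

/-- a component of the curve `G = 0`: `LL` is its (homogeneous) field, `π` the restriction -/
structure Dcf {k F LL : Type} [Field k] [Field F] [Algebra k F] [Field LL] [Algebra k LL]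
    (u : Fin 3 → F) (dd : Fin 3 → Derivation k F F) (G : F) (π : Bb k u →ₐ[k] LL)
    (v : Fin 2 → LL) (EL : Derivation k LL LL) (d : ℕ) : Prop where
  hd : Hd k v EL d
  ker : ∀ b : Bb k u, Itg k u ((b : F) / G) → π b = 0
  sur : ∀ z : LL, ∃ b c : Bb k u, π c ≠ 0 ∧ z * π c = π b
  lin : ∀ i, ∃ (a : Fin 3 → k) (b : Bb k u), (b : F) = ∑ j, a j • u j ∧ v i = π b
  itg : ∀ b : Bb k u, Itg k v (π b)
  eul : ∀ b b' : Bb k u, (b' : F) = eu u dd b → EL (π b) = π b'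

/-- DCF: an integral element which is not divisible by `G` is not zero on some component -/
def T_DCF : Prop := ∀ (k F : Type) [Field k] [IsAlgClosed k] [CharZero k] [Field F] [Algebra k F]
  (u : Fin 3 → F) (dd : Fin 3 → Derivation k F F) (δ j0 c0 : ℕ) (J : MvPolynomial (Fin 3) k),
  Sfc u dd δ j0 c0 J → ∀ (m : ℕ) (G : F), 1 ≤ m → Crw u dd m G →
  (∀ a, Itg k u a → Itg k u (a * a / G) → Itg k u (a / G)) →
  ∀ z : Bb k u, ¬ Itg k u ((z : F) / G) →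
  ∃ (LL : Type) (_ : Field LL) (_ : Algebra k LL) (π : Bb k u →ₐ[k] LL) (v : Fin 2 → LL)
    (EL : Derivation k LL LL) (d : ℕ), Dcf u dd G π v EL d ∧ π z ≠ 0

/-- CND: first reduction of the denominators -/
def T_CND : Prop := ∀ (k F : Type) [Field k] [IsAlgClosed k] [CharZero k] [Field F] [Algebra k F]
  (u : Fin 3 → F) (dd : Fin 3 → Derivation k F F) (δ j0 c0 : ℕ) (J : MvPolynomial (Fin 3) k),
  Sfc u dd δ j0 c0 J → ∀ (m : ℕ) (G : F) (sg : ℕ) (S : MvPolynomial (Fin 3) k), 2 ≤ m →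
  Crs u dd m G sg S → ∀ (b : MvPolynomial (Fin 3) F) (h : ℕ) (H : MvPolynomial (Fin 3) k),
  Cub u dd b → H.IsHomogeneous h → H ≠ 0 → 6 * j0 + h + 3 + 3 * sg < m →
  (∀ a, Itg k u (aeval u H * ((bet u dd J G b).coeff a / G))) →
  ∀ a, Itg k u (aeval u J ^ 7 * aeval u H * aeval u S ^ 3 * G * b.coeff a)

/-- CNE: second reduction of the denominators -/
def T_CNE : Prop := ∀ (k F : Type) [Field k] [IsAlgClosed k] [CharZero k] [Field F] [Algebra k F]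
  (u : Fin 3 → F) (dd : Fin 3 → Derivation k F F) (δ j0 c0 : ℕ) (J : MvPolynomial (Fin 3) k),
  Sfc u dd δ j0 c0 J → ∀ (m : ℕ) (G : F) (sg : ℕ) (S : MvPolynomial (Fin 3) k), 2 ≤ m →
  Crs u dd m G sg S → ∀ (b : MvPolynomial (Fin 3) F) (h : ℕ) (H : MvPolynomial (Fin 3) k),
  Cub u dd b → H.IsHomogeneous h → H ≠ 0 → 6 * j0 + h + 3 + 3 * sg < m →
  (∀ a, Itg k u (aeval u H * ((bet u dd J G b).coeff a / G))) →
  (∀ a, Itg k u (aeval u J ^ 6 * aeval u H * G * b.coeff a)) →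
  ∀ a, Itg k u (aeval u J ^ 7 * aeval u H * aeval u S ^ 2 * b.coeff a)

/-- EL2: the local inequality in normalised coordinates -/
def T_EL2 : Prop := ∀ (k K : Type) [Field k] [CharZero k] [Field K] [Algebra k K] (v : DV k K)
  (θ : Derivation k K K) (m : ℕ) (x g : Fin 3 → K) (G s σ : K) (H : Fin 3 → Fin 3 → K), 1 ≤ m →
  Dat m x g G H → G ≠ 0 → s ≠ 0 → σ ≠ 0 → (∀ z : K, 0 ≤ v.ord z → ge v 0 (θ z)) →
  (∀ i, ge v 0 (x i)) → (∃ e : Fin 3 → K, (∀ i, ge v 0 (e i)) ∧ dp g e = σ) → ge v 0 σ → ge v 0 s →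
  θ G = ∑ i, g i * θ (x i) → (∀ i, θ (g i) = ∑ j, H i j * θ (x j)) → ge v 0 (θ G / G) →
  ∀ (r w n' : ℕ) (P N : Q2 K), WH w P → WH n' N → 1 ≤ P.natDegree → P ^ r * N ≠ 0 →
  (∀ (j : ℕ) (a : Fin 3 →₀ ℕ), ge v 0 (((Psi m x g G H s (P ^ r * N)).coeff j).coeff a)) →
  ge v 0 (σ ^ (n' + r * (w - 3)) * s ^ (2 * (n' + r * (w - 3))) *
    (evc θ x N * (m * G * evc θ x (Polynomial.derivative P)) ^ r))

/-- SL2: if there is a curve of large degree which satisfies the equation `P` then the sections are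
divisible by high powers of `P` -/
def T_SL2 : Prop := ∀ (k F : Type) [Field k] [IsAlgClosed k] [CharZero k] [Field F] [Algebra k F]
  (u : Fin 3 → F) (dd : Fin 3 → Derivation k F F) (δ j0 c0 : ℕ) (J : MvPolynomial (Fin 3) k),
  Sfc u dd δ j0 c0 J → ∀ (m : ℕ) (G : F) (sg : ℕ) (S : MvPolynomial (Fin 3) k), 4 ≤ m →
  Crs u dd m G sg S → ∀ (n w : ℕ) (τ : ℤ) (P : Q2 F),
  Irreducible P → 1 ≤ P.natDegree → Tw u dd w τ P → ∃ cs : Set (Q2 F), cs.Finite ∧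
  (∀ c ∈ cs, FE u dd c) ∧
  ∀ (K : Type) [Field K] [Algebra k K] [Algebra.EssFiniteType k K], Algebra.trdeg k K = 1 →
  ∀ (D : Derivation k K K), D ≠ 0 → ∀ (φ : Bb k u →ₐ[k] K) (x : Fin 3 → K) (g : K)
  (Sp : Finset (DV k K)), Crt u J m G sg S φ x g Sp → Avd u φ D x cs → ∀ PK, VQ u φ P PK →
  evc D x PK = 0 → 0 < deg k x → (n : ℤ) * (canDeg D + Sp.card) < deg k x →
  Mls u dd J j0 m sg G n P

/-- PR2: the result on sections -/
def T_PR2 : Prop := ∀ δ j0 c0 ε : ℕ, ∃ N : ℕ,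
  ∀ (k F : Type) [Field k] [IsAlgClosed k] [CharZero k] [Field F] [Algebra k F]
  (u : Fin 3 → F) (dd : Fin 3 → Derivation k F F) (J : MvPolynomial (Fin 3) k),
  Sfc u dd δ j0 c0 J → ∀ (m : ℕ) (G : F) (sg : ℕ) (S : MvPolynomial (Fin 3) k),
  N * (sg + 1) ≤ m → Crs u dd m G sg S →
  ∃ (B : ℕ) (cs : Set (Q2 F)) (ps : Set (ℕ × MvPolynomial (Fin 3) k × MvPolynomial (Fin 3) F)),
  cs.Finite ∧ ps.Finite ∧ (∀ c ∈ cs, FE u dd c) ∧
  (∀ p ∈ ps, ε * p.1 ≤ m ∧ Cnn u dd J m G p.1 p.2.1 p.2.2 ∧ S ∣ p.2.1) ∧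
  ∀ (K : Type) [Field K] [Algebra k K] [Algebra.EssFiniteType k K], Algebra.trdeg k K = 1 →
  ∀ (D : Derivation k K K), D ≠ 0 → ∀ (φ : Bb k u →ₐ[k] K) (x : Fin 3 → K) (g : K)
  (Sp : Finset (DV k K)), Crt u J m G sg S φ x g Sp →
  (deg k x ≤ B * max 0 (canDeg D + Sp.card)) ∨
  (∃ c ∈ cs, ∃ W, VQ u φ c W ∧ evc D x W = 0) ∨
  ∃ p ∈ ps, ∀ b0 : MvPolynomial (Fin 3) (Bb k u),
    map ((Bb k u).val : Bb k u →+* F) b0 = p.2.2 →
    aeval x p.2.1 * dt x (fun i => D (x i)) (fun i => D (D (x i))) +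
      eval₂ (φ : Bb k u →+* K) (fun i => D (x i)) b0 = 0

/-- PS2: restriction to the field generated by the values -/
def T_PS2 : Prop := ∀ (k F : Type) [Field k] [IsAlgClosed k] [CharZero k] [Field F] [Algebra k F]
  (u : Fin 3 → F) (dd : Fin 3 → Derivation k F F) (δ j0 c0 : ℕ) (J : MvPolynomial (Fin 3) k),
  Sfc u dd δ j0 c0 J → ∀ (m : ℕ) (G : F) (sg : ℕ) (S : MvPolynomial (Fin 3) k),
  Crw u dd m G → S.IsHomogeneous sg →
  ∀ (K : Type) [Field K] [Algebra k K] [Algebra.EssFiniteType k K], Algebra.trdeg k K = 1 →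
  ∀ (D : Derivation k K K), D ≠ 0 → ∀ (φ : Bb k u →ₐ[k] K) (x : Fin 3 → K) (g : K)
  (Sp : Finset (DV k K)), Crt u J m G sg S φ x g Sp →
  (∀ i, x i ∈ Set.range (algebraMap k K)) ∨
  ∃ (K0 : Type) (_ : Field K0) (_ : Algebra k K0) (_ : Algebra.EssFiniteType k K0)
    (ι : K0 →ₐ[k] K) (φ0 : Bb k u →ₐ[k] K0) (x0 : Fin 3 → K0) (g0 : K0)
    (D0 : Derivation k K0 K0) (μ : K) (S0 : Finset (DV k K0)),
    Algebra.trdeg k K0 = 1 ∧ D0 ≠ 0 ∧ (∀ i, ι (x0 i) = x i) ∧ (∀ b, ι (φ0 b) = φ b) ∧ Prm φ0 ∧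
    μ ≠ 0 ∧ (∀ z, D (ι z) = μ * ι (D0 z)) ∧ Crt u J m G sg S φ0 x0 g0 S0 ∧ S0.card ≤ Sp.card

/-- FL2: first order equations, local form -/
def T_FL2 : Prop := ∀ (k F : Type) [Field k] [IsAlgClosed k] [CharZero k] [Field F] [Algebra k F]
  (u : Fin 3 → F) (dd : Fin 3 → Derivation k F F) (δ j0 c0 : ℕ) (J : MvPolynomial (Fin 3) k),
  Sfc u dd δ j0 c0 J → ∀ (m : ℕ) (G : F) (sg : ℕ) (S : MvPolynomial (Fin 3) k),
  Crw u dd m G → ∀ c : Q2 F, FE u dd c → ∃ C : ℕ,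
  ∀ (K : Type) [Field K] [Algebra k K] [Algebra.EssFiniteType k K], Algebra.trdeg k K = 1 →
  ∀ (D : Derivation k K K), D ≠ 0 → ∀ (φ : Bb k u →ₐ[k] K) (x : Fin 3 → K) (g : K)
    (Sp : Finset (DV k K)), Crt u J m G sg S φ x g Sp → Prm φ →
    (∃ W, VQ u φ c W ∧ evc D x W = 0) →
    (∃ (e : ℕ) (Φ : MvPolynomial (Fin 3) k), e ≤ C ∧ Φ ≠ 0 ∧ Φ.IsHomogeneous e ∧ aeval x Φ = 0) ∨
    ∀ v : DV k K, v.ord g + m * poleOrder v x ≤ C

/-- SU2: from local bounds to the degree -/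
def T_SU2 : Prop := ∀ (k K : Type) [Field k] [IsAlgClosed k] [CharZero k] [Field K] [Algebra k K]
  [Algebra.EssFiniteType k K], Algebra.trdeg k K = 1 → ∀ (m sg C : ℕ) (g s : K) (x : Fin 3 → K),
  g ≠ 0 → s ≠ 0 → (∃ j, x j ≠ 0) → (∀ v : DV k K, 0 ≤ nv v x sg s) → ∀ Sp : Finset (DV k K),
  (∀ v, v ∉ Sp → nv v x m g ≤ nv v x sg s) → (∀ v ∈ Sp, nv v x m g ≤ C) →
  (m : ℤ) * deg k x ≤ sg * deg k x + C * Sp.card

end Pool.Agent.H3.S2
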