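import Pool.Agent.H54.SRF.CN1
import Pool.Agent.H3.S2.Tg

/-!
# MP_70ba79_ag, THEOREM S, part 2: row CNA
-/

set_option autoImplicit false

namespace Pool.Agent.H3.S2

open MvPolynomial SC Pool.Agent.H27.LV
open Pool.Agent.H84.SM (dp cr dt)
open Pool.Agent.H92.SF Pool.Agent.H3.SF
open Pool.Agent.H54.SRF


theorem pf_CNA (hSF2 : T_SFW) (hVLA : T_VLA) (_hVLQ : T_VLQ) (_hTWM : T_TWM) : T_CNA := by
  classical
  intro k F _ _ _ _ _ u dd δ j0 c0 J hS m G hm hG P hP1 hTw
  obtain ⟨hDat, -⟩ := hSF2 k F u dd δ j0 c0 J hS m G hG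
  obtain ⟨b1, hb1⟩ : ∃ b1, b1 = P.coeff 0 := ⟨_, rfl⟩
  have hb1h : b1.IsHomogeneous 3 := by
    rw [hb1]
    exact (hTw.1 0).1 (by omega)
  have hP : P = Polynomial.C b1 + Polynomial.X := by
    ext1 j
    rcases j with _ | _ | j
    · simp [hb1]
    · simp [hP1, Polynomial.coeff_C]
    · rw [(hTw.1 (j + 1 + 1)).2 (by omega)]
      simp [Polynomial.coeff_C, Polynomial.coeff_X]
  -- the vector product with the variables
  let cF : Fin 3 → MvPolynomial (Fin 3) F := cr (fun i => C (u i)) X
  let v : Fin 2 → MvPolynomial (Fin 3) F := ![cF 1, cF 2]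
  have hcF : ∀ i, (cF i).IsHomogeneous 1 := by
    intro i
    change (C (u (i + 1)) * X (i + 2) - C (u (i + 2)) * X (i + 1) :
      MvPolynomial (Fin 3) F).IsHomogeneous 1
    apply IsHomogeneous.sub
    · have h1 := (isHomogeneous_C (Fin 3) (u (i + 1))).mul (isHomogeneous_X F (i + 2))
      simpa using h1
    · have h1 := (isHomogeneous_C (Fin 3) (u (i + 2))).mul (isHomogeneous_X F (i + 1))
      simpa using h1
  have hv : ∀ i, (v i).IsHomogeneous 1 := by
    intro i
    fin_cases i
    · exact hcF 1
    · exact hcF 2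
  have hEu : ∀ i, Hm k (eu u dd) 1 (u i) := by
    intro i
    unfold Hm eu
    rw [Fin.sum_univ_three]
    simp only [Derivation.add_apply, Derivation.smul_apply, smul_eq_mul, hS.du]
    fin_cases i <;> simp
  have hcFh : ∀ i, HP (eu u dd) 1 (cF i) := by
    intro i
    change HP (eu u dd) 1 (C (u (i + 1)) * X (i + 2) - C (u (i + 2)) * X (i + 1) :
      MvPolynomial (Fin 3) F)
    rw [sub_eq_add_neg]
    refine hpAdd ?_ (hpNeg ?_)
    · have h1 := hpMul (hpC (σ := Fin 3) (hEu (i + 1))) (hpX (k := k) (E := eu u dd) (i + 2))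
      simpa using h1
    · have h1 := hpMul (hpC (σ := Fin 3) (hEu (i + 2))) (hpX (k := k) (E := eu u dd) (i + 1))
      simpa using h1
  have hb1m : HP (eu u dd) (-3) b1 := by
    intro a
    have h1 := hTw.2 0 a
    rw [← hb1] at h1
    have e : ((3 : ℤ) - 2 * ((3 : ℕ) : ℤ) + 3 * ((0 : ℕ) : ℤ)) = -3 := by norm_num
    rw [e] at h1
    exact h1
  refine ⟨aeval v b1, ⟨?_, ?_, ?_⟩, ?_, ?_⟩
  · have h1 := hb1h.aeval v hv
    simpa using h1
  · rw [aeval_sum v b1 b1.support subset_rfl]
    refine hpSum _ _ fun d hd => ?_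
    rw [mem_support_iff] at hd
    have hd3 : d 0 + d 1 = 3 := by
      have h2 := hb1h hd
      rw [Finsupp.weight_apply, Finsupp.sum_fintype _ _ (by simp)] at h2
      simpa [Fin.sum_univ_two] using h2
    have h3 := hpMul (hpC (σ := Fin 3) (hb1m d))
      (hpMul (hpPow (hcFh 1) (d 0)) (hpPow (hcFh 2) (d 1)))
    have e : (-3 : ℤ) + ((d 0 : ℤ) * 1 + (d 1 : ℤ) * 1) = 0 := by
      have : (d 0 : ℤ) + d 1 = 3 := by exact_mod_cast hd3
      linarith
    rw [e] at h3
    exact h3
  · -- invariance
    have h1 : ∀ p : MvPolynomial (Fin 2) F,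
        ∑ i, C (u i) * pderiv i (aeval v p) = (0 : MvPolynomial (Fin 3) F) := by
      intro p
      induction p using MvPolynomial.induction_on with
      | C a => simp
      | add p q hp hq =>
        simp only [map_add, mul_add, Finset.sum_add_distrib]
        rw [hp, hq, add_zero]
      | mul_X p j hp =>
        have h2 : ∑ i, C (u i) * pderiv i (v j) = (0 : MvPolynomial (Fin 3) F) := by
          fin_cases j <;> simp [v, cF, cr, Fin.sum_univ_three, pderiv_X, Pi.single_apply] <;> ring
        have h3 : ∀ i, C (u i) * pderiv i (aeval v (p * X j)) =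
            aeval v p * (C (u i) * pderiv i (v j)) + v j * (C (u i) * pderiv i (aeval v p)) := by
          intro i
          rw [map_mul, aeval_X, Derivation.leibniz, smul_eq_mul, smul_eq_mul]
          ring
        rw [Finset.sum_congr rfl fun i _ => h3 i, Finset.sum_add_distrib, ← Finset.mul_sum,
          ← Finset.mul_sum, h2, hp, mul_zero, mul_zero, add_zero]
    exact h1 b1
  · -- the chart
    have hpc : ∀ i, pc m u (grd dd G) G (aeval u J) i =
        Polynomial.C (C (aeval u J ^ 2) * cr (fun i => C (u i)) (gx dd G) i) := by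
      intro i
      have h1 : cr (fun i => C (u i)) (gx dd G) i =
          C (grd dd G i) * dp (fun i => C (u i)) X - X i * C (m * G) := by
        unfold gx
        rw [cr_cr]
        congr 2
        rw [← hDat.eul]
        simp only [dp, Fin.sum_univ_three, map_add, map_mul]
      rw [h1]
      unfold pc muc
      have h2 : (dp (fun i => cc (u i)) rv : C3 F) =
          Polynomial.C (dp (fun i => C (u i)) X) := by
        simp only [dp, rv, cc, Fin.sum_univ_three, map_add, map_mul, RingHom.comp_apply]
      rw [h2]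
      simp only [cc, rv, RingHom.comp_apply, map_mul, map_sub, map_pow]
      ring
    have hcomp : eval₂Hom (cc : F →+* C3 F) ![pc m u (grd dd G) G (aeval u J) 1,
        pc m u (grd dd G) G (aeval u J) 2] b1 =
        Polynomial.C (aeval (fun i => C (aeval u J ^ 2) * gx dd G i) (aeval v b1)) := by
      have h1 : ∀ p : MvPolynomial (Fin 2) F, eval₂Hom (cc : F →+* C3 F)
          ![pc m u (grd dd G) G (aeval u J) 1, pc m u (grd dd G) G (aeval u J) 2] p =
          Polynomial.C (aeval (fun i => C (aeval u J ^ 2) * gx dd G i) (aeval v p)) := by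
        intro p
        induction p using MvPolynomial.induction_on with
        | C a =>
          rw [eval₂Hom_C, algHom_C, AlgHom.commutes]
          rfl
        | add p q hp hq => rw [map_add, map_add, map_add, map_add, hp, hq]
        | mul_X p j hp =>
          rw [map_mul, map_mul, map_mul, map_mul, hp, eval₂Hom_X', aeval_X]
          congr 1
          have h2 : ∀ i, aeval (fun i => C (aeval u J ^ 2) * gx dd G i) (cF i) =
              C (aeval u J ^ 2) * cr (fun i => C (u i)) (gx dd G) i := by
            intro i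
            change aeval (fun i => C (aeval u J ^ 2) * gx dd G i)
              (C (u (i + 1)) * X (i + 2) - C (u (i + 2)) * X (i + 1)) =
              C (aeval u J ^ 2) * (C (u (i + 1)) * gx dd G (i + 2) -
                C (u (i + 2)) * gx dd G (i + 1))
            rw [map_sub, map_mul, map_mul, algHom_C, algHom_C, aeval_X, aeval_X]
            rw [algebraMap_eq]
            ring
          fin_cases j
          · change pc m u (grd dd G) G (aeval u J) 1 =
              Polynomial.C (aeval (fun i => C (aeval u J ^ 2) * gx dd G i) (cF 1))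
            rw [h2, hpc]
          · change pc m u (grd dd G) G (aeval u J) 2 =
              Polynomial.C (aeval (fun i => C (aeval u J ^ 2) * gx dd G i) (cF 2))
            rw [h2, hpc]
      exact h1 b1
    unfold Ps Psi ev2
    rw [hP, map_add]
    rw [Polynomial.coe_eval₂RingHom, Polynomial.eval₂_C, Polynomial.eval₂_X, hcomp]
    unfold wc bet
    rw [map_sub]
    have h3 : cc (aeval u J) ^ 6 * hq (fun i j => cc (hes dd G i j)) (gxr (grd dd G))
        (gxr (grd dd G)) * muc u = Polynomial.C (C (aeval u J ^ 6) *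
        hq (fun i j => C (hes dd G i j)) (gx dd G) (gx dd G) * dp (fun i => C (u i)) X) := by
      have h4 : ∀ i, gxr (grd dd G) i = Polynomial.C (gx dd G i) := by
        intro i
        change cc (grd dd G (i + 1)) * rv (i + 2) - cc (grd dd G (i + 2)) * rv (i + 1) =
          Polynomial.C (C (grd dd G (i + 1)) * X (i + 2) - C (grd dd G (i + 2)) * X (i + 1))
        simp only [cc, rv, RingHom.comp_apply, map_mul, map_sub]
      unfold muc hq
      simp only [h4, dp, rv, cc, RingHom.comp_apply, map_mul, map_sum, map_pow]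
    rw [h3]
    ring
  · -- values
    intro K _ _ φ D x W A b0 hx hVQ hb0
    have hvu : ∀ i, Vl u φ (u i) (x i) := by
      intro i
      have h1 : Itg k u (u i) := by
        have h2 := ((aeval u : MvPolynomial (Fin 3) k →ₐ[k] F) :
          MvPolynomial (Fin 3) k →+* F).isIntegralElem_map (x := X i)
        simpa [Itg] using h2
      have h3 := (hVLA k F K u φ).2.2.2.1 ⟨u i, h1⟩
      rwa [hx i ⟨u i, h1⟩ rfl] at h3
    have hvA : ∀ p : MvPolynomial (Fin 3) k, Vl u φ (aeval u p) (aeval x p) := by
      intro p
      induction p using MvPolynomial.induction_on with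
      | C a =>
        rw [algHom_C, algHom_C]
        exact (hVLA k F K u φ).2.2.2.2 a
      | add p q hp hq =>
        rw [map_add, map_add]
        exact ((hVLA k F K u φ).2.1 _ _ _ _ hp hq).1
      | mul_X p j hp =>
        rw [map_mul, map_mul, aeval_X, aeval_X]
        exact ((hVLA k F K u φ).2.1 _ _ _ _ hp (hvu j)).2
    have huniq := (hVLA k F K u φ).1
    obtain ⟨w1, hw1⟩ : ∃ w1, w1 = W.coeff 0 := ⟨_, rfl⟩
    have hvw : VP u φ b1 w1 := by
      intro a
      rw [hb1, hw1]
      exact hVQ 0 a
    have hW : W = Polynomial.C w1 + Polynomial.X := by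
      ext1 j
      rcases j with _ | _ | j
      · simp [hw1]
      · have h1 : W.coeff 1 = 1 := by
          ext a
          have h2 := hVQ 1 a
          rw [hP1] at h2
          have h3 : Vl u φ (coeff a (1 : MvPolynomial (Fin 2) F))
              (coeff a (1 : MvPolynomial (Fin 2) K)) := by
            have h4 := vpC hVLA (σ := Fin 2) (vlOne (u := u) (φ := φ) hVLA) a
            rwa [C_1, C_1] at h4
          exact huniq _ _ _ h2 h3
        simp [h1, Polynomial.coeff_C]
      · have h1 : W.coeff (j + 1 + 1) = 0 := by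
          ext a
          have h2 := hVQ (j + 1 + 1) a
          rw [(hTw.1 (j + 1 + 1)).2 (by omega), coeff_zero] at h2
          rw [coeff_zero]
          exact huniq _ _ _ h2 (vlZero hVLA)
        rw [h1]
        simp [Polynomial.coeff_C, Polynomial.coeff_X]
    let cK : Fin 3 → MvPolynomial (Fin 3) K := cr (fun i => C (x i)) X
    let vK : Fin 2 → MvPolynomial (Fin 3) K := ![cK 1, cK 2]
    have hcv : ∀ i, VP u φ (cF i) (cK i) := by
      intro i
      change VP u φ (C (u (i + 1)) * X (i + 2) - C (u (i + 2)) * X (i + 1) :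
        MvPolynomial (Fin 3) F) (C (x (i + 1)) * X (i + 2) - C (x (i + 2)) * X (i + 1))
      rw [sub_eq_add_neg, sub_eq_add_neg]
      exact vpAdd hVLA (vpMul hVLA (vpC hVLA (hvu _)) (vpX hVLA _))
        (vpNeg hVLA (vpMul hVLA (vpC hVLA (hvu _)) (vpX hVLA _)))
    have hbv : VP u φ (C (aeval u A) * aeval v b1) (C (aeval x A) * aeval vK w1) := by
      refine vpMul hVLA (vpC hVLA (hvA A)) ?_
      rw [aeval_sum v b1 (b1.support ∪ w1.support) Finset.subset_union_left,
        aeval_sum vK w1 (b1.support ∪ w1.support) Finset.subset_union_right]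
      refine vpSum hVLA _ _ _ fun d _ => ?_
      exact vpMul hVLA (vpC hVLA (hvw d))
        (vpMul hVLA (vpPow hVLA (hcv 1) (d 0)) (vpPow hVLA (hcv 2) (d 1)))
    have hmap : map (φ : Bb k u →+* K) b0 = C (aeval x A) * aeval vK w1 := by
      ext a
      rw [coeff_map]
      have h1 := hbv a
      rw [← hb0, coeff_map] at h1
      have h2 := (hVLA k F K u φ).2.2.2.1 (b0.coeff a)
      exact (huniq _ _ _ h1 h2).symm
    have hev : eval₂ (φ : Bb k u →+* K) (fun i => D (x i)) b0 =
        aeval x A * eval ![cr x (fun i => D (x i)) 1, cr x (fun i => D (x i)) 2] w1 := by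
      rw [← eval_map, hmap, map_mul, eval_C]
      congr 1
      have h1 : ∀ p : MvPolynomial (Fin 2) K, eval (fun i => D (x i)) (aeval vK p) =
          eval ![cr x (fun i => D (x i)) 1, cr x (fun i => D (x i)) 2] p := by
        intro p
        induction p using MvPolynomial.induction_on with
        | C a => simp
        | add p q hp hq => rw [map_add, map_add, map_add, hp, hq]
        | mul_X p j hp =>
          rw [map_mul, map_mul, map_mul, hp, aeval_X, eval_X]
          congr 1
          fin_cases j <;> simp [vK, cK, cr]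
      exact h1 w1
    rw [hev, hW]
    unfold evc ev2
    rw [map_add, Polynomial.coe_eval₂RingHom, Polynomial.eval₂_C, Polynomial.eval₂_X]
    have h5 : eval₂Hom (RingHom.id K) ![cr x (fun i => D (x i)) 1, cr x (fun i => D (x i)) 2] w1 =
        eval ![cr x (fun i => D (x i)) 1, cr x (fun i => D (x i)) 2] w1 := rfl
    rw [h5]
    ring

end Pool.Agent.H3.S2
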