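import Pool.Agent.H48.SF.CNI
import Pool.Agent.H3.S2.Tg

/-!
# MP_70ba79_ag, THEOREM S, part 2: row CNB
-/

set_option autoImplicit false

namespace Pool.Agent.H3.S2

open MvPolynomial SC Pool.Agent.H27.LV
open Pool.Agent.H84.SM (dp cr dt)
open Pool.Agent.H92.SF Pool.Agent.H3.SF
open Pool.Agent.H48.SF


theorem pf_CNB (_hSF1 : Pool.Agent.H3.SF.T_SF1) (hSF2 : T_SFW) :
    T_CNB := by
  intro k F _ _ _ _ _ u dd δ j0 c0 J hS m G hm hG b hb
  have hD := (hSF2 k F u dd δ j0 c0 J hS m G hG).1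
  have : CharZero F := charZero_of_injective_algebraMap (algebraMap k F).injective
  obtain ⟨Φ, hΦ⟩ : ∃ Φ : MvPolynomial (Fin 3) F →ₐ[F] MvPolynomial (Fin 3) F,
    Φ = aeval (fun i => - cr (fun j => C (u j)) X i) := ⟨_, rfl⟩
  have hX : ∀ i, Φ (X i) = - cr (fun j => C (u j)) X i := by
    intro i
    rw [hΦ, aeval_X]
  have hC : ∀ a, Φ (C a) = C a := fun a => algHom_C Φ a
  rw [← hΦ]
  unfold bet
  have h1 : Φ (dp (fun i => C (u i)) X) = 0 := by
    simp only [dp, Fin.sum_univ_three, map_add, map_mul, hX, hC]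
    simp [cr]
    ring
  have h2 : ∀ i, Φ (C (aeval u J ^ 2) * gx dd G i) =
      C (aeval u J ^ 2) * (C ((m : F) * G) * X i + (- dp (fun j => C (dd j G)) X) * C (u i)) := by
    intro i
    have he := hD.eul
    rw [← he]
    rw [map_mul, hC]
    congr 1
    unfold gx grd
    fin_cases i <;>
    simp [cr, dp, Fin.sum_univ_three, hX, hC] <;> ring
  rw [map_sub, map_mul, h1, mul_zero, sub_zero]
  have h3 : Φ (aeval (fun i => C (aeval u J ^ 2) * gx dd G i) b) =
      aeval (fun i => Φ (C (aeval u J ^ 2) * gx dd G i)) b := by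
    rw [← AlgHom.comp_apply, comp_aeval]
  rw [h3]
  simp only [h2]
  rw [ci_scale _ _ hb.hb]
  have h4 := ci_shift (R := MvPolynomial (Fin 3) F) u hb.inv (fun i => C ((m : F) * G) * X i)
    (- dp (fun j => C (dd j G)) X)
  have h5 : aeval (fun i => C ((m : F) * G) * X i) b = C ((m : F) * G) ^ 3 * b := by
    rw [ci_scale _ _ hb.hb, aeval_X_left_apply]
  rw [h5] at h4
  have h6 : aeval (fun i => C ((m : F) * G) * X i + (- dp (fun j => C (dd j G)) X) * C (u i)) b =
      C ((m : F) * G) ^ 3 * b := h4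
  rw [h6, ← mul_assoc, ← C_pow, ← C_pow, ← C_mul]
  congr 2
  ring

end Pool.Agent.H3.S2
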