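import Pool.Agent.H55.SF.CNS
import Pool.Agent.H3.S2.Tg

/-!
# MP_70ba79_ag, THEOREM S, part 2: row CNC
-/

set_option autoImplicit false

namespace Pool.Agent.H3.S2

open MvPolynomial SC Pool.Agent.H27.LV
open Pool.Agent.H84.SM (dp cr dt)
open Pool.Agent.H92.SF Pool.Agent.H3.SF
open Pool.Agent.H55.SF


theorem pf_CNC (hSF1 : T_SF1) (hSF2 : T_SFW) : T_CNC := by
  intro k F _ _ _ _ _ u dd δ j0 c0 J hS m G hm hG b hb
  obtain ⟨hD, -⟩ := hSF2 k F u dd δ j0 c0 J hS m G hG
  have heul : dp u (grd dd G) = m * G := hD.eul
  have hhes := hD.hes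
  refine ⟨?_, ?_⟩
  · intro R _ _ ρ c
    have hcr : ∀ σ : Fin 3 → R, aeval σ (bet u dd J G b) =
        aeval (fun i => algebraMap F R (aeval u J ^ 2) *
          cr (fun i => algebraMap F R (dd i G)) σ i) b -
        algebraMap F R (aeval u J ^ 6) * hq (fun i j => algebraMap F R (hes dd G i j))
          (cr (fun i => algebraMap F R (dd i G)) σ) (cr (fun i => algebraMap F R (dd i G)) σ) *
          dp (fun i => algebraMap F R (u i)) σ := by
      intro σ
      have h1 : ∀ i, aeval σ (gx dd G i) = cr (fun i => algebraMap F R (dd i G)) σ i := by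
        intro i
        simp [gx, cr, grd]
      unfold bet
      rw [map_sub, map_mul, map_mul]
      congr 1
      · rw [comp_aeval_apply]
        congr 2
        funext i
        rw [map_mul, h1, ← algebraMap_eq, AlgHom.commutes]
      · congr 1
        · congr 1
          · rw [← algebraMap_eq, AlgHom.commutes]
          · simp only [hq, map_sum, map_mul, h1, ← algebraMap_eq, AlgHom.commutes]
        · simp only [dp, map_sum, map_mul, aeval_X, ← algebraMap_eq, AlgHom.commutes]
    have hc : cr (fun i => algebraMap F R (dd i G)) (fun i => ρ i + c * algebraMap F R (dd i G)) =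
        cr (fun i => algebraMap F R (dd i G)) ρ := by
      funext i
      simp only [cr]
      ring
    rw [hcr, hcr, hc]
    have hdp : dp (fun i => algebraMap F R (u i)) (fun i => ρ i + c * algebraMap F R (dd i G)) =
        dp (fun i => algebraMap F R (u i)) ρ + c * algebraMap F R (m * G) := by
      rw [← heul]
      simp only [dp, Fin.sum_univ_three, grd, map_add, map_mul]
      ring
    rw [hdp]
    simp only [map_mul]
    ring
  · intro e he
    set κ : Fin 3 → F := cr u e with hκ
    let D : Derivation F (MvPolynomial (Fin 3) F) (MvPolynomial (Fin 3) F) :=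
      mkDerivation F (fun i => C (κ i))
    have hDX : ∀ i, D (X i) = C (κ i) := fun i => mkDerivation_X _ _ _
    have hDC : ∀ a : F, D (C a) = 0 := fun a => by
      rw [← algebraMap_eq]
      exact D.map_algebraMap a
    have haC : ∀ a : F, aeval (gx dd G) (C a) = C a := fun a => by rw [aeval_C, algebraMap_eq]
    have hDp : ∀ p, D p = ∑ i, C (κ i) * pderiv i p := by
      intro p
      have h := cns_chn D X p
      rw [aeval_X_left_apply] at h
      rw [h]
      refine Finset.sum_congr rfl fun i _ => ?_
      rw [aeval_X_left_apply, hDX, mul_comm]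
    have hdpg : u 0 * dd 0 G + u 1 * dd 1 G + u 2 * dd 2 G = m * G := by
      have := heul
      simpa [dp, Fin.sum_univ_three, grd] using this
    have hde : dd 0 G * e 0 + dd 1 G * e 1 + dd 2 G * e 2 = 1 := by
      simpa [Fin.sum_univ_three] using he
    -- the vector product of the gradient with κ
    have hgk : ∀ i, cr (grd dd G) κ i = u i - m * G * e i := by
      intro i
      rw [hκ]
      fin_cases i
      · change dd 1 G * (u 0 * e 1 - u 1 * e 0) - dd 2 G * (u 2 * e 0 - u 0 * e 2) =
          u 0 - m * G * e 0
        linear_combination u 0 * hde - e 0 * hdpg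
      · change dd 2 G * (u 1 * e 2 - u 2 * e 1) - dd 0 G * (u 0 * e 1 - u 1 * e 0) =
          u 1 - m * G * e 1
        linear_combination u 1 * hde - e 1 * hdpg
      · change dd 0 G * (u 2 * e 0 - u 0 * e 2) - dd 1 G * (u 1 * e 2 - u 2 * e 1) =
          u 2 - m * G * e 2
        linear_combination u 2 * hde - e 2 * hdpg
    have hDgx : ∀ i, D (gx dd G i) = C (u i - m * G * e i) := by
      intro i
      rw [← hgk]
      simp only [gx, cr, map_sub, Derivation.leibniz, hDX, hDC, smul_eq_mul, mul_zero, add_zero,
        map_mul, grd]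
    -- first part
    have h1 : D (aeval (fun i => C (aeval u J ^ 2) * gx dd G i) b) =
        - C (m * G * aeval u J ^ 6) * aeval (gx dd G) (∑ i, C (e i) * pderiv i b) := by
      rw [cns_chn]
      have hp : ∀ j, aeval (fun i => C (aeval u J ^ 2) * gx dd G i) (pderiv j b) =
          C (aeval u J ^ 2) ^ 2 * aeval (gx dd G) (pderiv j b) := fun j =>
        cns_hom _ _ (hb.hb.pderiv)
      have hinv := congrArg (aeval (gx dd G)) hb.inv
      rw [map_zero, map_sum] at hinv
      have h3 : ∀ j, aeval (fun i => C (aeval u J ^ 2) * gx dd G i) (pderiv j b) *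
          D (C (aeval u J ^ 2) * gx dd G j) =
          C (aeval u J ^ 6) * (aeval (gx dd G) (C (u j) * pderiv j b)) -
          C (m * G * aeval u J ^ 6) * aeval (gx dd G) (C (e j) * pderiv j b) := by
        intro j
        rw [hp, Derivation.leibniz, hDC, hDgx, smul_zero, add_zero, smul_eq_mul,
          map_mul (aeval (gx dd G)), map_mul (aeval (gx dd G)), haC, haC]
        simp only [map_sub, map_mul, map_pow]
        ring
      rw [Finset.sum_congr rfl fun j _ => h3 j, Finset.sum_sub_distrib, ← Finset.mul_sum, hinv,
        ← Finset.mul_sum, map_sum]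
      ring
    -- second part
    have h2 : D (C (aeval u J ^ 6) * hq (fun i j => C (hes dd G i j)) (gx dd G) (gx dd G) *
        dp (fun i => C (u i)) X) = - (C (2 * m * G * aeval u J ^ 6) *
        hq (fun i j => C (hes dd G i j)) (gx dd G) (fun i => C (e i)) *
        dp (fun i => C (u i)) X) := by
      have hgg : C (grd dd G 0) * gx dd G 0 + C (grd dd G 1) * gx dd G 1 +
          C (grd dd G 2) * gx dd G 2 = 0 := by
        change C (grd dd G 0) * (C (grd dd G 1) * X 2 - C (grd dd G 2) * X 1) +
          C (grd dd G 1) * (C (grd dd G 2) * X 0 - C (grd dd G 0) * X 2) +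
          C (grd dd G 2) * (C (grd dd G 0) * X 1 - C (grd dd G 1) * X 0) = 0
        ring
      have hH : ∀ i, C (hes dd G i 0) * C (u 0) + C (hes dd G i 1) * C (u 1) +
          C (hes dd G i 2) * C (u 2) =
          (C ((m - 1 : F)) * C (grd dd G i) : MvPolynomial (Fin 3) F) := by
        intro i
        have h := hhes i
        rw [Fin.sum_univ_three] at h
        rw [← C_mul, ← C_mul, ← C_mul, ← C_mul, ← C_add, ← C_add, h]
      have hu : C (u 0) * C (κ 0) + C (u 1) * C (κ 1) + C (u 2) * C (κ 2) =
          (0 : MvPolynomial (Fin 3) F) := by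
        rw [← C_mul, ← C_mul, ← C_mul, ← C_add, ← C_add]
        rw [show u 0 * κ 0 + u 1 * κ 1 + u 2 * κ 2 = 0 by
          rw [hκ]
          change u 0 * (u 1 * e 2 - u 2 * e 1) + u 1 * (u 2 * e 0 - u 0 * e 2) +
            u 2 * (u 0 * e 1 - u 1 * e 0) = 0
          ring, C_0]
      have hs : ∀ i j, C (hes dd G i j) = (C (hes dd G j i) : MvPolynomial (Fin 3) F) :=
        fun i j => by rw [hD.sym i j]
      have hdd : D (dp (fun i => C (u i)) X) = 0 := by
        rw [← hu]
        simp only [dp, Fin.sum_univ_three, map_add, Derivation.leibniz, hDC, hDX, smul_eq_mul,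
          mul_zero, add_zero]
      have hdq : D (hq (fun i j => C (hes dd G i j)) (gx dd G) (gx dd G)) =
          - (C (2 * m * G) * hq (fun i j => C (hes dd G i j)) (gx dd G) (fun i => C (e i))) := by
        simp only [hq, Fin.sum_univ_three, map_add, Derivation.leibniz, hDC, hDgx, smul_eq_mul,
          mul_zero, add_zero]
        have hH0 := hH 0
        have hH1 := hH 1
        have hH2 := hH 2
        rw [hs 1 0] at hH1
        rw [hs 2 0, hs 2 1] at hH2
        simp only [map_sub, map_mul, hs 1 0, hs 2 0, hs 2 1]
        have h22 : (C (2 : F) : MvPolynomial (Fin 3) F) = 2 := map_ofNat C 2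
        rw [h22]
        linear_combination 2 * (gx dd G 0 * hH0 + gx dd G 1 * hH1 + gx dd G 2 * hH2) +
          2 * C (m - 1 : F) * hgg
      rw [Derivation.leibniz, hdd, smul_zero, zero_add, Derivation.leibniz, hDC, smul_zero,
        add_zero, hdq]
      simp only [smul_eq_mul, map_mul, map_pow]
      ring
    rw [← hDp, bet, map_sub, h1, h2]
    ring

end Pool.Agent.H3.S2
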