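import Pool.Agent.H3.S2.Tg
import Pool.Agent.H48.SF.EVL

/-!
# MP_70ba79_ag, THEOREM S, part 2: EL2 (the local inequality in normalised coordinates)
-/

set_option autoImplicit false

open MvPolynomial SC Pool.Agent.H27.LV
open Pool.Agent.H84.SM (dp cr dt)
open Pool.Agent.H92.SF Pool.Agent.H3.SF Pool.Agent.H48.SF

namespace Pool.Agent.H3.S2

/-- the value of a polynomial of weight `n` -/
theorem scale3 {L : Type} [Field L] {n : ℕ} {W : C3 L} (hW : WC n W) (c : L) (ρ : Fin 3 → L)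
    (ζ : L) : ev3 (RingHom.id L) (fun i => c * ρ i) (c ^ 3 * ζ) W =
      c ^ n * ev3 (RingHom.id L) ρ ζ W := by
  unfold ev3
  rw [Polynomial.coe_eval₂RingHom, Polynomial.coe_eval₂RingHom, Polynomial.eval₂_eq_sum_range,
    Polynomial.eval₂_eq_sum_range, Finset.mul_sum]
  refine Finset.sum_congr rfl fun j _ => ?_
  rcases le_or_gt (3 * j) n with h | h
  · have h1 := (hW j).1 h
    have h2 : eval₂Hom (RingHom.id L) (fun i => c * ρ i) (W.coeff j) =
        c ^ (n - 3 * j) * eval₂Hom (RingHom.id L) ρ (W.coeff j) := by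
      rw [coe_eval₂Hom, coe_eval₂Hom, eval₂_eq', eval₂_eq', Finset.mul_sum]
      refine Finset.sum_congr rfl fun a ha => ?_
      have h3 := h1 (mem_support_iff.1 ha)
      rw [Finsupp.weight_apply, Finsupp.sum_fintype _ _ (by simp)] at h3
      simp only [Pi.one_apply, smul_eq_mul, mul_one] at h3
      simp only [mul_pow, Finset.prod_mul_distrib, Finset.prod_pow_eq_pow_sum]
      rw [h3]
      ring
    rw [h2, mul_pow, ← pow_mul]
    have h4 : c ^ n = c ^ (n - 3 * j) * c ^ (3 * j) := by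
      rw [← pow_add]
      congr 1
      omega
    rw [h4]
    ring
  · rw [(hW j).2 h, map_zero, map_zero, zero_mul, zero_mul, mul_zero]

theorem pf_EL2 : T_EL2 := by
  intro k K _ _ _ _ v θ m x g G s σ H hm hD hG hs hσ hθ hx he hσ0 hs0 hθG hθg hlam r w n' P N hP hN hdeg
    hPN hint
  have : CharZero K := charZero_of_injective_algebraMap (algebraMap k K).injective
  obtain ⟨e, he0, he1⟩ := he
  obtain ⟨f, hf⟩ : ∃ f : Fin 3 → K, f = fun i => σ⁻¹ * e i := ⟨_, rfl⟩
  have hf1 : dp g f = 1 := by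
    have h1 : dp g f = σ⁻¹ * dp g e := by
      rw [hf]
      unfold dp
      rw [Finset.mul_sum]
      exact Finset.sum_congr rfl fun i _ => by ring
    rw [h1, he1, inv_mul_cancel₀ hσ]
  obtain ⟨lam, hlm⟩ : ∃ lam : K, lam = θ G / (m * G) := ⟨_, rfl⟩
  obtain ⟨q, hq⟩ : ∃ q : Fin 3 → K, q = fun i => θ (x i) - lam * x i := ⟨_, rfl⟩
  obtain ⟨t, ht⟩ : ∃ t : Fin 3 → K, t = cr q (fun j => θ (q j) - lam * q j) := ⟨_, rfl⟩
  obtain ⟨hJ1, hJ2, hJ3, hJ4⟩ := pf_JET K (θ.restrictScalars ℤ) m x g G H hm hD hG hθG hθg q t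
    (fun i => by rw [hq, hlm]; rfl) (fun i => by rw [ht, hlm]; rfl)
  -- regularity
  have hθ' : ∀ z, z ∈ v.vs → θ z ∈ v.vs := fun z hz => (el_ge v).1 (hθ z ((v.mem_vs z).1 hz))
  have hx' : ∀ i, x i ∈ v.vs := fun i => (el_ge v).1 (hx i)
  have he' : ∀ i, e i ∈ v.vs := fun i => (el_ge v).1 (he0 i)
  have hs' : s ∈ v.vs := (el_ge v).1 hs0
  have hl' : lam ∈ v.vs := by
    have h1 : lam = θ G / G * (algebraMap k K (m : k)⁻¹) := by
      rw [hlm, map_inv₀, map_natCast, div_mul_eq_div_div_swap, div_eq_mul_inv (θ G / G)]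
    rw [h1]
    refine mul_mem ((el_ge v).1 hlam) ?_
    rw [DV.mem_vs, v.ord_base]
  have hq' : ∀ i, q i ∈ v.vs := by
    intro i
    rw [hq]
    exact sub_mem (hθ' _ (hx' i)) (mul_mem hl' (hx' i))
  have hcr : ∀ a b : Fin 3 → K, (∀ i, a i ∈ v.vs) → (∀ i, b i ∈ v.vs) → ∀ i, cr a b i ∈ v.vs :=
    fun a b ha hb i => sub_mem (mul_mem (ha _) (hb _)) (mul_mem (ha _) (hb _))
  have ht' : ∀ i, t i ∈ v.vs := by
    rw [ht]
    exact hcr _ _ hq' fun j => sub_mem (hθ' _ (hq' j)) (mul_mem hl' (hq' j))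
  have hρ : ∀ i, cr q e i ∈ v.vs := hcr _ _ hq' he'
  have hσ' : σ ∈ v.vs := (el_ge v).1 hσ0
  have hζ : σ ^ 2 * (s ^ 6 * dp t e) ∈ v.vs := by
    refine mul_mem (pow_mem hσ' 2) (mul_mem (pow_mem hs' 6) (sum_mem fun i _ =>
      mul_mem (ht' i) (he' i)))
  have hρe : cr q e = fun i => σ * cr q f i := by
    funext i
    rw [hf]
    simp only [cr]
    field_simp
  have hζe : σ ^ 2 * (s ^ 6 * dp t e) = σ ^ 3 * (s ^ 6 * dp t f) := by
    have h1 : dp t e = σ * dp t f := by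
      rw [hf]
      unfold dp
      rw [Finset.mul_sum]
      refine Finset.sum_congr rfl fun i _ => ?_
      field_simp
    rw [h1]
    ring
  -- the value of a homogeneous element
  have hval : ∀ (n : ℕ) (V : Q2 K), WH n V →
      ev3 (RingHom.id K) (cr q e) (σ ^ 2 * (s ^ 6 * dp t e)) (Psi m x g G H s V) =
        σ ^ n * (s ^ (2 * n) * evc θ x V) := by
    intro n V hV
    rw [hρe, hζe, scale3 (pf_PWC K m x g G H s n V hV)]
    have h1 := pf_VAL K K (RingHom.id K) m x g G H s hD q t f hJ1 hJ2 hf1 V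
    have h2 := pf_SCL K K (RingHom.id K) (RingHom.id K) n 0 V 1 (s ^ 2) one_ne_zero hV
      (fun j a => by rw [one_zpow, one_mul]) (cr x fun i => θ (x i))
      (dt x (fun i => θ (x i)) fun i => θ (θ (x i)))
    have h3 : (fun i => (RingHom.id K) s ^ 2 * cr (fun i => (RingHom.id K) (x i)) q i) =
        fun i => (1 : K) ^ 2 * s ^ 2 * cr x (fun i => θ (x i)) i := by
      funext i
      rw [one_pow, one_mul]
      exact congrArg (fun z => s ^ 2 * z) (hJ3 i)
    have h4 : (RingHom.id K) s ^ 6 * dp (fun i => (RingHom.id K) (x i)) t =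
        (1 : K) ^ 3 * (s ^ 2) ^ 3 * dt x (fun i => θ (x i)) fun i => θ (θ (x i)) := by
      rw [one_pow, one_mul, ← pow_mul]
      exact congrArg (fun z => s ^ 6 * z) hJ4
    rw [h3, h4, h2, zpow_zero, one_mul, ← pow_mul] at h1
    exact congrArg (fun z => σ ^ n * z) h1
  have hw : 3 ≤ w := by
    by_contra h
    push Not at h
    have h1 := (hP P.natDegree).2 (by omega)
    have h2 : P ≠ 0 := by
      rintro rfl
      simp at hdeg
    exact h2 (Polynomial.leadingCoeff_eq_zero.1 h1)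
  have hmain := gauss3 v (Psi m x g G H s P) (Psi m x g G H s N) r
    (by
      intro j a
      have h1 := hint j a
      rwa [map_mul, map_pow] at h1) hρ hζ
  rw [map_mul, map_pow, pf_PDW K m x g G H s P, map_mul, ev3_cc, hval n' N hN,
    hval (w - 3) _ (wh_der hP hw)] at hmain
  rw [el_ge v]
  have hfin : σ ^ (n' + r * (w - 3)) * s ^ (2 * (n' + r * (w - 3))) *
      (evc θ x N * (m * G * evc θ x (Polynomial.derivative P)) ^ r) =
      σ ^ n' * (s ^ (2 * n') * evc θ x N) * ((RingHom.id K) (m * G) *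
        (σ ^ (w - 3) * (s ^ (2 * (w - 3)) * evc θ x (Polynomial.derivative P)))) ^ r := by
    have h1 : s ^ (2 * (n' + r * (w - 3))) = s ^ (2 * n') * (s ^ (2 * (w - 3))) ^ r := by
      rw [← pow_mul, ← pow_add]
      congr 1
      ring
    have h2 : σ ^ (n' + r * (w - 3)) = σ ^ n' * (σ ^ (w - 3)) ^ r := by
      rw [← pow_mul, ← pow_add]
      congr 1
      ring
    rw [h1, h2]
    simp only [RingHom.id_apply]
    ring
  rw [hfin]
  exact hmain

end Pool.Agent.H3.S2
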