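import Pool.Agent.H3.S2.Tg
import Pool.Agent.H3.SF.MAX

/-!
# MP_70ba79_ag, THEOREM S, part 2: row MX2: assembly
-/

set_option autoImplicit false

namespace Pool.Agent.H3.S2

open MvPolynomial SC Pool.Agent.H27.LV
open Pool.Agent.H84.SM (dp cr dt T_IMF T_CAN)
open Pool.Agent.H92.SF
open Pool.Agent.H3.SF
open Pool.Agent.H84.SF (Cor)

theorem pf_MX2 (hPRT : T_PR2) (hFOS : T_FO2) (hLOX : T_LO2) (hPRS : T_PS2) (hDSX : T_DSX)
    (hIMF : T_IMF) (hCAN : T_CAN) : T_MX2 := by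
  intro δ j0 c0
  obtain ⟨κ, hκ⟩ := hLOX
  obtain ⟨m1, hm1⟩ := hPRT δ j0 c0 (4 * (κ + 1))
  refine ⟨m1 + 4 * (κ + 1) * (j0 + 1), ?_⟩
  intro k F σ _ _ _ _ _ _ _ X u dd J hS hX m G sg Sf hm hG hs
  have hmm : m1 * (sg + 1) + 4 * (κ + 1) * (j0 + 1) * (sg + 1) ≤ m := by
    rw [← add_mul]
    exact hm
  have hmm1 : m1 * (sg + 1) ≤ m := (Nat.le_add_right _ _).trans hmm
  have hmm2 : 4 * ((κ + 1) * (j0 + 1) * (sg + 1)) ≤ m := by
    have h1 := (Nat.le_add_left _ _).trans hmm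
    calc 4 * ((κ + 1) * (j0 + 1) * (sg + 1)) = 4 * (κ + 1) * (j0 + 1) * (sg + 1) := by ring
      _ ≤ m := h1
  have hsz : κ * j0 + κ * sg + j0 + sg + 1 ≤ (κ + 1) * (j0 + 1) * (sg + 1) := by
    have h1 : (κ + 1) * (j0 + 1) * (sg + 1) =
        κ * j0 + κ * sg + j0 + sg + 1 + (κ * j0 * sg + κ + j0 * sg) := by ring
    rw [h1]
    exact Nat.le_add_right _ _
  have hm2 : 2 ≤ m := by omega
  have hsm : sg < m := by omega
  obtain ⟨B0, cs, ps, hcs, hps, hc, hp, h⟩ := hm1 k F u dd J hS m G sg Sf hmm1 hG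
  obtain ⟨C1, hC1⟩ := finmax cs hcs (fun c C => ∀ (K : Type) [Field K] [Algebra k K]
    [Algebra.EssFiniteType k K], Algebra.trdeg k K = 1 → ∀ (D : Derivation k K K), D ≠ 0 →
    ∀ (φ : Bb k u →ₐ[k] K) (x : Fin 3 → K) (g : K) (S : Finset (DV k K)), Prm φ →
    Crt u J m G sg Sf φ x g S → ∀ W : Q2 K, VQ u φ c W → evc D x W = 0 → Con k C x S.card)
    (fun a C C' hCC hP K _ _ _ ht D hD φ x g S hpr hx W hW he =>
      (hP K ht D hD φ x g S hpr hx W hW he).mono hCC)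
    (fun c hcc => by
      obtain ⟨C, hC⟩ := hFOS k F u dd δ j0 c0 J hS m G sg Sf hsm hG.toCrw hG.Sh c (hc c hcc)
      exact ⟨C, fun K _ _ _ ht D hD φ x g S hpr hx W hW he =>
        hC K ht D hD φ x g S hpr hx W hW he⟩)
  obtain ⟨C2, hC2⟩ := finmax ps hps (fun p C => ∀ (K : Type) [Field K] [Algebra k K]
    [Algebra.EssFiniteType k K], Algebra.trdeg k K = 1 → ∀ (D : Derivation k K K), D ≠ 0 →
    ∀ (φ : Bb k u →ₐ[k] K) (x : Fin 3 → K) (g : K) (S : Finset (DV k K)), Prm φ →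
    Crt u J m G sg Sf φ x g S →
    ∀ b0 : MvPolynomial (Fin 3) (Bb k u), map ((Bb k u).val : Bb k u →+* F) b0 = p.2.2 →
    aeval x p.2.1 * dt x (fun i => D (x i)) (fun i => D (D (x i))) +
      eval₂ (φ : Bb k u →+* K) (fun i => D (x i)) b0 = 0 → Con k C x S.card)
    (fun a C C' hCC hP K _ _ _ ht D hD φ x g S hpr hx b0 hb0 he =>
      (hP K ht D hD φ x g S hpr hx b0 hb0 he).mono hCC)
    (fun p hpp => by
      obtain ⟨h1, h2, h3⟩ := hp p hpp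
      have h4 : κ * (p.1 + j0 + sg) < m := by
        have h5 : κ * p.1 ≤ (κ + 1) * p.1 := Nat.mul_le_mul_right _ (Nat.le_succ κ)
        have h6 : 4 * ((κ + 1) * p.1) ≤ m := by
          calc 4 * ((κ + 1) * p.1) = 4 * (κ + 1) * p.1 := by ring
            _ ≤ m := h1
        rw [mul_add, mul_add]
        omega
      obtain ⟨C, hC⟩ := hκ k F σ X u dd δ j0 c0 J hS hX m G sg Sf hm2 hG hs p.1 p.2.1 p.2.2 h2
        h3 h4
      exact ⟨C, fun K _ _ _ ht D hD φ x g S hpr hx b0 hb0 he =>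
        hC K ht D hD φ x g S hpr hx b0 hb0 he⟩)
  refine ⟨2 * B0 + 7 * (C1 + C2) + 2, ?_⟩
  intro K _ _ _ ht D hD φ x g S hx
  have hcan := hCAN k K ht D hD
  -- reduction to the bound of the degree of a form by the number of places
  have hred : (∃ (e : ℕ) (Φ : MvPolynomial (Fin 3) k), e ≤ 2 * ((C1 + C2) * S.card) +
      (C1 + C2) + 1 ∧ Φ ≠ 0 ∧ Φ.IsHomogeneous e ∧ aeval x Φ = 0) →
      ∃ (e : ℕ) (Φ : MvPolynomial (Fin 3) k), (e : ℤ) ≤ ((2 * B0 + 7 * (C1 + C2) + 2 : ℕ) : ℤ) *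
        max 1 (canDeg D + S.card) ∧ Φ ≠ 0 ∧ Φ.IsHomogeneous e ∧ aeval x Φ = 0 := by
    rintro ⟨e, Φ, he, hΦ⟩
    refine ⟨e, Φ, ?_, hΦ⟩
    have h1 : (e : ℤ) ≤ 2 * (((C1 + C2 : ℕ) : ℤ) * (S.card : ℤ)) + ((C1 + C2 : ℕ) : ℤ) + 1 := by
      exact_mod_cast he
    have hm1 : (1 : ℤ) ≤ max 1 (canDeg D + S.card) := le_max_left _ _
    have hm2 : canDeg D + (S.card : ℤ) ≤ max 1 (canDeg D + S.card) := le_max_right _ _
    generalize max 1 (canDeg D + (S.card : ℤ)) = M at hm1 hm2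
    have h2 : (S.card : ℤ) ≤ 3 * M := by omega
    have h3 : (0 : ℤ) ≤ ((C1 + C2 : ℕ) : ℤ) := by positivity
    have h4 : ((C1 + C2 : ℕ) : ℤ) * (S.card : ℤ) ≤ ((C1 + C2 : ℕ) : ℤ) * (3 * M) :=
      mul_le_mul_of_nonneg_left h2 h3
    have h5 : ((C1 + C2 : ℕ) : ℤ) * 1 ≤ ((C1 + C2 : ℕ) : ℤ) * M :=
      mul_le_mul_of_nonneg_left hm1 h3
    have h6 : (0 : ℤ) ≤ (B0 : ℤ) * M := by positivity
    push_cast at h1 h4 h5 ⊢
    nlinarith
  by_cases hcc : ∀ i, x i ∈ Set.range (algebraMap k K)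
  · obtain ⟨Φ, h1, h2, h3⟩ := const_line x hx.one hcc
    exact hred ⟨1, Φ, by omega, h1, h2, h3⟩
  rcases h K ht D hD φ x g S hx with h1 | h1
  · obtain ⟨e, Φ, he, hΦ⟩ := hIMF k K ht x hx.one
    refine ⟨e, Φ, ?_, hΦ⟩
    have he' : (e : ℤ) ≤ 2 * (deg k x : ℤ) + 1 := by exact_mod_cast he
    have hm1 : (1 : ℤ) ≤ max 1 (canDeg D + S.card) := le_max_left _ _
    have hm2 : max 0 (canDeg D + (S.card : ℤ)) ≤ max 1 (canDeg D + S.card) :=
      max_le_max_right _ (by norm_num)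
    generalize max 1 (canDeg D + (S.card : ℤ)) = M at hm1 hm2
    have h4 : (B0 : ℤ) * max 0 (canDeg D + (S.card : ℤ)) ≤ (B0 : ℤ) * M :=
      mul_le_mul_of_nonneg_left hm2 (by positivity)
    have h5 : (0 : ℤ) ≤ ((C1 : ℤ) + C2) * M := by positivity
    push_cast
    nlinarith
  · rcases hPRS k F u dd δ j0 c0 J hS m G sg Sf hG.toCrw hG.Sh K ht D hD φ x g S hx with hcc' | ⟨K0, i1, i2, i3, ι,
      φ0, x0, g0, D0, μ, S0, ht0, hD0, hx0, hφ0, hpr, hμ, hDμ, hcr, hcard⟩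
    · exact absurd hcc' hcc
    · have hxx : x = fun j => ι (x0 j) := funext fun j => (hx0 j).symm
      have hdsx := hDSX k F u dd K0 K ι φ0 φ D D0 μ x0 hμ hDμ hφ0
      have hCon : Con k (C1 + C2) x0 S0.card := by
        rcases h1 with ⟨c, hcm, W, hW, hce⟩ | ⟨p, hpm, hpe⟩
        · rw [hxx] at hce
          obtain ⟨W0, hW0, he0⟩ := hdsx.1 c W (hc c hcm) hW hce
          exact (hC1 c hcm K0 ht0 D0 hD0 φ0 x0 g0 S0 hpr hcr W0 hW0 he0).mono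
            (Nat.le_add_right _ _)
        · obtain ⟨_, hcon, _⟩ := hp p hpm
          obtain ⟨b0, hb0⟩ := exists_lift u p.2.2 hcon.itg
          have hbh := lift_hom u p.2.2 3 hcon.hb b0 hb0
          have hpe' := hpe b0 hb0
          rw [hxx] at hpe'
          exact (hC2 p hpm K0 ht0 D0 hD0 φ0 x0 g0 S0 hpr hcr b0 hb0
            (hdsx.2 p.2.1 b0 hbh hpe')).mono (Nat.le_add_left _ _)
      apply hred
      have hav : ∀ Φ : MvPolynomial (Fin 3) k, aeval x0 Φ = 0 → aeval x Φ = 0 := by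
        intro Φ h0
        have h2 : aeval x Φ = ι (aeval x0 Φ) := by
          rw [hxx, ← MvPolynomial.comp_aeval_apply]
        rw [h2, h0, map_zero]
      rcases hCon with ⟨e, Φ, he, h1, h2, h3⟩ | hdeg
      · exact ⟨e, Φ, by omega, h1, h2, hav Φ h3⟩
      · obtain ⟨e, Φ, he, h1, h2, h3⟩ := hIMF k K0 ht0 x0 hcr.one
        refine ⟨e, Φ, ?_, h1, h2, hav Φ h3⟩
        have h4 : (C1 + C2) * S0.card ≤ (C1 + C2) * S.card := Nat.mul_le_mul_left _ hcard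
        omega

end Pool.Agent.H3.S2
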