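import Pool.Agent.H78.SF.PRS
import Pool.Agent.H3.S2.Tg

/-!
# MP_70ba79_ag, THEOREM S, part 2: row PS2
-/

set_option autoImplicit false

namespace Pool.Agent.H3.S2

open MvPolynomial SC Pool.Agent.H27.LV
open Pool.Agent.H84.SM (dp cr dt)
open Pool.Agent.H92.SF Pool.Agent.H3.SF
open Pool.Agent.H10.SM (der_adjoin der_alg alg_adjoin der_ne pole_ext place_inj mem_range_of_alg)
open Pool.Agent.H78.SF
open Pool.Agent.H10.SM (der_adjoin der_alg alg_adjoin der_ne pole_ext place_inj mem_range_of_alg)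

theorem pf_PS2 (hSF1 : T_SF1) : T_PS2 := by
  intro k F₀ _ _ _ _ _ u dd δ j0 c0 J hS m G sg Sf hG hSf K _ _ _ htr D hD φ x g S hx
  classical
  by_cases hc : ∀ i, x i ∈ Set.range (algebraMap k K)
  · exact Or.inl hc
  right
  push Not at hc
  obtain ⟨i0, hi0⟩ := hc
  have hitu : ∀ i, Itg k u (u i) := (hSF1 k F₀ u dd δ j0 c0 J hS).2.1
  have hxt : Transcendental k (x i0) := fun ha => hi0 (mem_range_of_alg ha)
  have hμ : D (x i0) ≠ 0 := der_ne htr (x i0) hxt D hD
  have hxφ : ∀ i, φ ⟨u i, hitu i⟩ = x i := fun i => hx.cx i ⟨u i, hitu i⟩ rfl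
  have hxs : ∀ i, x i ∈ Set.range φ := fun i => ⟨_, hxφ i⟩
  let F : IntermediateField k K := IntermediateField.adjoin k (Set.range φ)
  have hφF : ∀ b, φ b ∈ F := fun b => IntermediateField.subset_adjoin _ _ ⟨b, rfl⟩
  have hxF : ∀ i, x i ∈ F := fun i => IntermediateField.subset_adjoin _ _ (hxs i)
  have hgφ : φ ⟨G, hG.itg⟩ = g := hx.gx ⟨G, hG.itg⟩ rfl
  have hgF : g ∈ F := by
    rw [← hgφ]
    exact hφF _
  obtain ⟨D0, hD0⟩ := exists_D0' htr D (x i0) (Set.range φ) (hxs i0) hxt hμ F rfl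
  have hess : Algebra.EssFiniteType k F := ess_inter htr F (x i0) (hxF i0) hxt
  let x0 : Fin 3 → F := fun i => ⟨x i, hxF i⟩
  let g0 : F := ⟨g, hgF⟩
  let φ0 : Bb k u →ₐ[k] F :=
    { toFun := fun b => ⟨φ b, hφF b⟩
      map_one' := Subtype.ext (map_one φ)
      map_mul' := fun a b => Subtype.ext (map_mul φ a b)
      map_zero' := Subtype.ext (map_zero φ)
      map_add' := fun a b => Subtype.ext (map_add φ a b)
      commutes' := fun c => Subtype.ext (φ.commutes c) }
  have hφ0 : ∀ b, F.val (φ0 b) = φ b := fun b => rfl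
  have hιx : ∀ i, F.val (x0 i) = x i := fun i => rfl
  have htrF : Algebra.trdeg k F = 1 := by
    apply le_antisymm
    · rw [← htr]
      exact trdeg_le_of_injective F.val F.val.injective
    · rw [Cardinal.one_le_iff_ne_zero, trdeg_ne_zero_iff]
      refine ⟨⟨⟨x i0, hxF i0⟩, ?_⟩⟩
      intro halg
      exact hxt (halg.algebraMap (A := K))
  have hval : ∀ P : MvPolynomial (Fin 3) k, F.val (aeval x0 P) = aeval x P := by
    intro P
    rw [← AlgHom.comp_apply, MvPolynomial.comp_aeval]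
    rfl
  -- places
  have hE := Pool.Agent.H16.SM.pf_EXT k F K F.val htrF htr
  choose v e he hve using hE
  have hpole : ∀ w, poleOrder (v w) x = e w * poleOrder w x0 := fun w =>
    pole_ext F.val w (v w) (e w) (hve w) x0 x hιx
  let T : Set (DV k F) := {w | ¬ nv w x0 m g0 ≤ nv w x0 sg (aeval x0 Sf)}
  have hmem : ∀ w ∈ T, v w ∈ S := by
    intro w hw
    by_contra hvS
    apply hw
    have h1 := hx.off (v w) hvS
    have h0 : F.val g0 = g := rfl
    unfold nv at h1 ⊢
    rw [← h0, ← hval, hve, hve, hpole] at h1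
    have h2 : (0 : ℤ) < e w := by
      have := he w
      omega
    have h3 : (e w : ℤ) * (w.ord g0 + (m : ℤ) * poleOrder w x0) ≤
        e w * (w.ord (aeval x0 Sf) + (sg : ℤ) * poleOrder w x0) := by
      push_cast at h1
      nlinarith
    exact le_of_mul_le_mul_left h3 h2
  have hinj : Function.Injective v := by
    intro w w' hww
    refine place_inj F.val w w' (v w) (e w) (e w') (he w) (he w') (hve w) ?_
    rw [hww]
    exact hve w'
  have hTfin : T.Finite := Set.Finite.of_injOn (f := v) (t := (S : Set (DV k K)))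
    (fun w hw => hmem w hw) hinj.injOn S.finite_toSet
  refine ⟨F, inferInstance, inferInstance, hess, F.val, φ0, x0, g0, D0, D (x i0), hTfin.toFinset,
    htrF, ?_, hιx, hφ0, ?_, hμ, hD0, ⟨?_, ?_, ?_, ?_, ?_, ?_, ?_⟩, ?_⟩
  · intro h0
    have h1 := hD0 (x0 i0)
    rw [h0] at h1
    apply hμ
    have h2 : ((0 : Derivation k F F) (x0 i0) : K) = 0 := rfl
    rw [h2, mul_zero] at h1
    exact h1
  · unfold Prm
    apply IntermediateField.lift_injective F
    rw [IntermediateField.lift_adjoin, IntermediateField.lift_top, ← Set.range_comp]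
    rfl
  · intro i b hb
    exact Subtype.ext (hx.cx i b hb)
  · obtain ⟨j, hj⟩ := hx.one
    exact ⟨j, Subtype.ext hj⟩
  · intro h0
    apply hx.Jx
    rw [← hval, h0, map_zero]
  · intro h0
    apply hx.Sx
    rw [← hval, h0, map_zero]
  · intro b hb
    exact Subtype.ext (hx.gx b hb)
  · intro h0
    apply hx.ne
    exact congrArg Subtype.val h0
  · intro w hw
    by_contra h1
    exact hw (hTfin.mem_toFinset.2 h1)
  · refine Finset.card_le_card_of_injOn v ?_ hinj.injOn
    intro w hw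
    exact hmem w (hTfin.mem_toFinset.1 hw)

end Pool.Agent.H3.S2
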