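import Pool.Agent.H62.HIL.Tg
import Pool.Agent.H62.HIL.Norm
import Pool.Agent.H3.S2.Tg

/-!
# MP_70ba79_ag, THEOREM S, chapter 5: row SFW
-/

set_option autoImplicit false

namespace Pool.Agent.H3.S2

open MvPolynomial SC Pool.Agent.H27.LV
open Pool.Agent.H92.SF Pool.Agent.H3.SF
open Pool.Agent.H84.SM (dp cr dt)

/-- SFW -/
theorem pf_SFW (h1 : T_SF1) (h2 : T_NGD) (h3 : T_NDV) : T_SFW := by
  intro k F _ _ _ _ _ u dd δ j0 c0 J hS m G hG
  obtain ⟨hd, hui, hip, hdp, heu, hlow, -⟩ := h1 k F u dd δ j0 c0 J hS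
  obtain ⟨hneg, hnorm⟩ := h2 k F 3 δ u (eu u dd) hd
  have : CharZero F := charZero_of_injective_algebraMap (algebraMap k F).injective
  have hE1 : ∀ i, Hm k (eu u dd) 1 (u i) := by
    intro i
    have := hd.eul i
    unfold Hm
    rw [this]
    simp
  have hmul : ∀ {a b : F}, Itg k u a → Itg k u b → Itg k u (a * b) := fun ha hb =>
    RingHom.IsIntegralElem.mul _ ha hb
  have hsub : ∀ {a b : F}, Itg k u a → Itg k u b → Itg k u (a - b) := fun ha hb =>
    (Bb k u).sub_mem ha hb
  have hJ : Itg k u (aeval u J) := hip J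
  have hJ0 : aeval u J ≠ 0 := fun h0 => hS.J0 (hd.ind (by rw [h0, map_zero]))
  have heuap : ∀ a : F, eu u dd a = ∑ l, u l * dd l a := by
    intro a
    unfold eu
    simp only [Fin.sum_univ_three, Derivation.add_apply, Derivation.smul_apply, smul_eq_mul]
  -- (4)
  have h4 : ∀ (t : ℤ) (a : F), a ≠ 0 → Itg k u a → Hm k (eu u dd) t a → Itg k u (a / G) →
      (m : ℤ) ≤ t := by
    intro t a ha0 ha hat haG
    by_contra hlt
    push Not at hlt
    have h5 : Hm k (eu u dd) (t - m) (a / G) := Pool.Agent.H62.HIL.hm_div hat hG.hom hG.ne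
    have h6 := hneg (t - m) (a / G) (by linarith) haG h5
    rcases div_eq_zero_iff.mp h6 with h7 | h7
    · exact ha0 h7
    · exact hG.ne h7
  refine ⟨⟨?_, ?_, ?_⟩, fun l => hS.Jd l G hG.itg, ?_, h4, trivial, ?_⟩
  · have h5 := hG.hom
    unfold Hm at h5
    rw [heuap] at h5
    unfold dp grd
    rw [h5]
    simp
  · intro i
    have h5 := hlow m G i hG.hom
    unfold Hm at h5
    rw [heuap] at h5
    have h6 : ∑ j, hes dd G i j * u j = ∑ l, u l * dd l (dd i G) := by
      refine Finset.sum_congr rfl fun j _ => ?_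
      unfold hes
      rw [hS.comm i j G, mul_comm]
    rw [h6, h5]
    unfold grd
    push_cast
    ring
  · intro i j
    exact hS.comm i j G
  · intro i j
    have h5 : Itg k u (aeval u J * dd j G) := hS.Jd j G hG.itg
    have h6 : Itg k u (aeval u J * dd i (aeval u J * dd j G)) := hS.Jd i _ h5
    have h7 : Itg k u (dd i (aeval u J)) := by
      rw [hdp]
      exact hip _
    have h8 := hsub (hmul hJ h6) (hmul (hmul hJ h7) h5)
    have h9 : aeval u J * (aeval u J * dd i (aeval u J * dd j G)) -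
        aeval u J * dd i (aeval u J) * (aeval u J * dd j G) =
        aeval u J ^ 3 * dd i (dd j G) := by
      rw [Derivation.leibniz, smul_eq_mul, smul_eq_mul]
      ring
    rwa [h9] at h8
  · intro hm
    obtain ⟨N, hN1, hN2, hN3⟩ := hnorm m G hG.itg hG.hom
    refine ⟨N, hN3 hG.ne, hN1, ?_⟩
    have h5 := h3 k F 3 δ u (eu u dd) hd G hG.ne hG.itg
    rwa [hN2] at h5

end Pool.Agent.H3.S2
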