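import Pool.Agent.H3.SF.All
import Pool.Agent.H15.FOS.All
import Pool.Agent.H3.S2.SFW
import Pool.Agent.H3.S2.CNA
import Pool.Agent.H3.S2.CNB
import Pool.Agent.H3.S2.CNC
import Pool.Agent.H3.S2.EL2
import Pool.Agent.H3.S2.SL2
import Pool.Agent.H3.S2.PR2
import Pool.Agent.H3.S2.PS2
import Pool.Agent.H3.S2.FO2
import Pool.Agent.H3.S2.MX2
import Pool.Agent.H14.S2.DCF
import Pool.Agent.H14.S2.CND
import Pool.Agent.H60.S2.CNE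
import Pool.Agent.H70.S2.CO2
import Pool.Agent.H74.S2.EF2

/-!
# MP_70ba79_ag, THEOREM S, part 2: composition
-/

set_option autoImplicit false

namespace Pool.Agent.H3.S2.All

open Pool.Agent.H3.SF Pool.Agent.H3.S2 Pool.Agent.H3.SF.All

theorem a_SFW : T_SFW := pf_SFW a_SF1 a_NGD a_NDV

theorem a_CNA : T_CNA := pf_CNA a_SFW a_VLA a_VLQ a_TWM

theorem a_CNB : T_CNB := pf_CNB a_SF1 a_SFW

theorem a_CNC : T_CNC := pf_CNC a_SF1 a_SFW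

theorem a_DCF : T_DCF := Pool.Agent.H14.S2.pf_DCF a_SF1 a_NGD a_NDV a_SAT

theorem a_CND : T_CND := Pool.Agent.H14.S2.pf_CND a_CNB a_CNC a_SF1 a_SFW a_CLS a_VRI a_NGD a_DCF

theorem a_CNE : T_CNE :=
  Pool.Agent.H60.S2.pf_CNE a_CNC a_SF1 a_SFW a_CLS a_VRI a_NGD a_GVM a_DCF

theorem a_CO2 : T_CO2 := Pool.Agent.H70.S2.pf_CO2 a_CNA a_CND a_CNE a_SF1

theorem a_EF2 : T_EF2 := Pool.Agent.H74.S2.pf_EF2 pf_EL2 a_VLA a_VLQ a_VLD a_VLI a_VPS a_SCD a_SCV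
  a_SF1 a_SFW a_TWM

theorem a_SL2 : T_SL2 := pf_SL2 a_EF2 a_RST a_VQE a_VLQ a_HFB a_TWM

theorem a_PS2 : T_PS2 := pf_PS2 a_SF1

theorem a_PR2 (h1 : T_NG2) (h2 : T_MF2) (h3 : T_MT2) : T_PR2 :=
  pf_PR2 h1 h2 h3 a_CO2 a_SL2 a_FAC a_VQE a_EF2 a_VLQ a_VLA a_TWM a_HFB a_HDN a_SF1

theorem a_FO2 : T_FO2 := pf_FO2 (pf_FL2 Pool.Agent.H15.FOS.a_MPR Pool.Agent.H15.FOS.a_PLQ
  Pool.Agent.H15.FOS.a_DPN Pool.Agent.H15.FOS.a_LCB Pool.Agent.H15.FOS.a_GNM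
  Pool.Agent.H15.FOS.a_PLO)

theorem a_MX2 (h1 : T_NG2) (h2 : T_MF2) (h3 : T_MT2) (h4 : T_LO2) : T_MX2 :=
  pf_MX2 (a_PR2 h1 h2 h3) a_FO2 h4 a_PS2 a_DSX Pool.Agent.H84.SM.A.a_IMF
    Pool.Agent.H84.SM.A.a_CAN

end Pool.Agent.H3.S2.All
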