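import Pool.Agent.H3.S2.TgQ
import Pool.Agent.H3.SF.Tg1
import Pool.Agent.H17.SFG.COR
import Pool.Agent.H17.SFG.CRH
import Pool.Agent.H62.HIL.S2
import Pool.Agent.H62.HIL.Dim2

/-!
# MP_70ba79_ag, THEOREM S, part 2: row CRQ: from the geometry to the data
-/

set_option autoImplicit false

namespace Pool.Agent.H3.S2

open MvPolynomial SC Pool.Agent.H27.LV
open Pool.Agent.H92.SF
open Pool.Agent.H3.SF

theorem pf_CRQ (hB : T_CQB) (hR : T_RDB) (hC : T_RDC) (hNGD : T_NGD) (hNDV : T_NDV)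
    (hSF1 : T_SF1) : T_CRQ := by
  classical
  intro k F σ _ _ _ _ _ _ X hX u θ dd δ j0 c0 J hS hP m G s Q hm hG hG0 hQ hQ0 hN
  have hcor : Pool.Agent.H84.SF.Cor X u dd J := Pool.Agent.H17.SFG.prj_cor X u θ dd J hP
  have hd : Hd k u (eu u dd) δ := (hSF1 k F u dd δ j0 c0 J hS).1
  have hXp : ∀ p : MvPolynomial σ k, Itg k u (aeval X p) := by
    intro p
    have hle : Algebra.adjoin k (Set.range X) ≤ Bb k u := by
      refine Algebra.adjoin_le ?_
      rintro b ⟨s, rfl⟩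
      exact hP.Xint s
    apply hle
    rw [Algebra.adjoin_range_eq_range_aeval]
    exact ⟨p, rfl⟩
  have hhm : ∀ (t : ℕ) (p : MvPolynomial σ k), p.IsHomogeneous t →
      Hm k (eu u dd) t (aeval X p) := fun t p hp =>
    Pool.Agent.H17.SFG.hm_aeval X (eu u dd) hP.Xeu t p hp
  have hndl : Ndl X G := fun y h0 h1 h2 => (hN y h0 h1 h2).imp id And.left
  have hred : ∀ a : F, Itg k u a → Itg k u (a * a / aeval X G) → Itg k u (a / aeval X G) :=
    hC k F u dd δ j0 c0 J hS m _ hG0 (hXp G) (hhm m G hG)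
      (hR k F σ X u dd δ j0 c0 J hS hcor hX.trd hX.hmg m G hm hG hG0 hndl)
  obtain ⟨c, hc⟩ := hB k F σ X u dd m G hX.trd hX.hmg hS.ind hP.ulin hP.Xint hS.du
    (fun l j a => hS.comm l j a) hP.Xeu hm hG s Q hQ hN
  obtain ⟨N, hNh, hNn, hN0⟩ := (hNGD k F 3 δ u (eu u dd) hd).2 s (aeval X Q) (hXp Q) (hhm s Q hQ)
  have hN0 := hN0 hQ0
  have hNI : Itg k u (aeval u N / aeval X Q) := by
    rw [← hNn]
    exact hNDV k F 3 δ u (eu u dd) hd (aeval X Q) hQ0 (hXp Q)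
  have hNm : Hm k (eu u dd) ((δ * s : ℕ) : ℤ) (aeval u N) := by
    refine Pool.Agent.H62.HIL.hm_aeval (fun i => ?_) hNh
    unfold Hm
    rw [hd.eul i]
    push_cast
    rw [one_mul]
  have hbm := Pool.Agent.H62.HIL.hm_div hNm (hhm s Q hQ) hQ0
  have hNe : aeval u N = aeval X Q * (aeval u N / aeval X Q) := by
    rw [mul_div_cancel₀ _ hQ0]
  refine ⟨N, aeval u N / aeval X Q, ⟨⟨hG0, hXp G, hhm m G hG⟩, hNh, hN0, ⟨c, fun i => ?_⟩, hred⟩,
    hNI, hNe⟩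
  obtain ⟨e, he, h2⟩ := hc i
  refine ⟨fun l => aeval u N / aeval X Q * e l, fun l => ⟨?_, ?_⟩, ?_⟩
  · exact (Bb k u).mul_mem hNI (he l).2.1
  · have h3 := Pool.Agent.H62.HIL.hm_mul hbm (he l).2.2
    have h4 : ((δ * s : ℕ) : ℤ) - s + ((c : ℤ) + 1 + s - m) =
        (c : ℤ) + 1 + ((δ * s : ℕ) : ℤ) - m := by ring
    rw [h4] at h3
    exact h3
  · have h3 : aeval u N * u i ^ c = aeval u N / aeval X Q * (aeval X Q * u i ^ c) := by
      rw [← mul_assoc, div_mul_cancel₀ _ hQ0]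
    rw [h3, h2, Finset.mul_sum]
    exact Finset.sum_congr rfl fun l _ => by ring

end Pool.Agent.H3.S2
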