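import Pool.Agent.H3.SF.All
import Pool.Agent.H17.SFG.All
import Pool.Agent.H84.SF.AllLOX
import Pool.Agent.H3.S2.CRQ
import Pool.Agent.H3.S2.QEX
import Pool.Agent.H13.S2.CQA
import Pool.Agent.H19.S2.CQB
import Pool.Agent.H19.S2.RDA
import Pool.Agent.H35.S2.NKD
import Pool.Agent.H56.S2.RDC
import Pool.Agent.H78.S2.RDB

/-!
# MP_70ba79_ag, THEOREM S, part 2: composition of CRQ
-/

set_option autoImplicit false

namespace Pool.Agent.H3.S2.AllQ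

open Pool.Agent.H3.SF Pool.Agent.H3.S2 Pool.Agent.H3.SF.All

theorem q_CQA : T_CQA := Pool.Agent.H13.S2C.pf_CQA Pool.Agent.H17.SFG.A.gmx Pool.Agent.H35.S2.pf_NKD

theorem q_CQB : T_CQB := Pool.Agent.H19.S2.pf_CQB q_CQA

theorem q_RDA : T_RDA := Pool.Agent.H19.S2.pf_RDA Pool.Agent.H84.SF.osf
  Pool.Agent.H84.SF.tay Pool.Agent.H84.SF.tak Pool.Agent.H84.SF.hmf Pool.Agent.H84.SF.hie

theorem q_RDB : T_RDB := Pool.Agent.H78.S2.pf_RDB Pool.Agent.H17.SFG.A.gmx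
  Pool.Agent.H35.S2.pf_NKD q_RDA a_NGD a_NDV a_SAT Pool.Agent.H84.SF.chm

theorem q_RDC : T_RDC := Pool.Agent.H56.S2.pf_RDC a_SF1

theorem a_CRQ : T_CRQ := pf_CRQ q_CQB q_RDB q_RDC a_NGD a_NDV a_SF1

end Pool.Agent.H3.S2.AllQ
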