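import Pool.Agent.H3.SF.Tg3
import Pool.Agent.H17.SD.Targets

/-!
# MP_70ba79_ag, THEOREM S, part 2: complements of nodal curves on surfaces; definitions

`S` is a form in `u`, of degree `sg`, which is small compared with the degree `m` of `G`. It
lies in the Jacobian ideal of the curve `G = 0`, in particular it vanishes at the singular points of
the curve; and the curves `φ` may meet `G = 0` outside of `Sp`, to at most the order of `S`.
-/

set_option autoImplicit false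

namespace Pool.Agent.H3.S2

open MvPolynomial SC Pool.Agent.H27.LV
open Pool.Agent.H84.SM (dp cr dt)
open Pool.Agent.H92.SF
open Pool.Agent.H3.SF

section Surf

variable {k F : Type} [Field k] [Field F] [Algebra k F]

/-- a form of degree `m` on the surface -/
structure Crw (u : Fin 3 → F) (dd : Fin 3 → Derivation k F F) (m : ℕ) (G : F) : Prop where
  ne : G ≠ 0
  itg : Itg k u G
  hom : Hm k (eu u dd) m G

/-- the curve `G = 0` is reduced, `S` lies in its Jacobian ideal -/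
structure Crs (u : Fin 3 → F) (dd : Fin 3 → Derivation k F F) (m : ℕ) (G : F) (sg : ℕ)
    (S : MvPolynomial (Fin 3) k) : Prop extends Crw u dd m G where
  Sh : S.IsHomogeneous sg
  S0 : S ≠ 0
  cert : ∃ c : ℕ, ∀ i, ∃ e : Fin 3 → F, (∀ l, Itg k u (e l) ∧
    Hm k (eu u dd) ((c : ℤ) + 1 + sg - m) (e l)) ∧ aeval u S * u i ^ c = ∑ l, e l * dd l G
  red : ∀ a, Itg k u a → Itg k u (a * a / G) → Itg k u (a / G)

/-- all sections of weight `n` and negative twist `-t` are divisible by a high power of `P` -/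
def Mls (u : Fin 3 → F) (dd : Fin 3 → Derivation k F F) (J : MvPolynomial (Fin 3) k)
    (j0 m sg : ℕ) (G : F) (n : ℕ) (P : Q2 F) : Prop :=
  ∀ (t r : ℕ) (V : Q2 F), V ∈ E u dd J m G n (-(t : ℤ)) →
    ((r : ℤ) - 1) * (m - 3) + 2 * n * (j0 + sg) < t → P ^ r ∣ V

end Surf

section Curves

variable {k F K : Type} [Field k] [Field F] [Algebra k F] [Field K] [Algebra k K]

/-- `φ` is a curve with the coordinates `x`, one of them is 1; `g` is the value of the form `G` of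
degree `m`; outside of `Sp` the curve meets `G = 0` to at most the order of `S` -/
structure Crt (u : Fin 3 → F) (J : MvPolynomial (Fin 3) k) (m : ℕ) (G : F) (sg : ℕ)
    (S : MvPolynomial (Fin 3) k) (φ : Bb k u →ₐ[k] K) (x : Fin 3 → K) (g : K)
    (Sp : Finset (DV k K)) : Prop where
  cx : ∀ (i : Fin 3) (b : Bb k u), (b : F) = u i → φ b = x i
  one : ∃ j, x j = 1
  Jx : aeval x J ≠ 0
  Sx : aeval x S ≠ 0
  gx : ∀ b : Bb k u, (b : F) = G → φ b = g
  ne : g ≠ 0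
  off : ∀ v, v ∉ Sp → nv v x m g ≤ nv v x sg (aeval x S)

end Curves

section Geo

variable {k F σ : Type} [Field k] [Field F] [Algebra k F]

/-- `y` is a tangent vector of the cone over the surface at `s` -/
def TgY [Fintype σ] (X : σ → F) (s y : σ → k) : Prop :=
  ∀ f : MvPolynomial σ k, aeval X f = 0 → ∑ j, eval s (pderiv j f) * y j = 0

/-- at the point `s` the surface is smooth and the curve `G = 0` has a node: `G` is congruent to
`G - f` without linear part at `s`, the quadratic part is not degenerate on the tangent plane -/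
structure Nod [Fintype σ] (X : σ → F) (G : MvPolynomial σ k) (s : σ → k) : Prop where
  dim : ∀ y : Fin 4 → σ → k, (∀ i, TgY X s (y i)) → ¬ LinearIndependent k y
  ex : ∃ f : MvPolynomial σ k, aeval X f = 0 ∧ (∀ j, eval s (pderiv j (G - f)) = 0) ∧
    ∀ y, TgY X s y → (∀ z, TgY X s z →
      ∑ i, ∑ j, eval s (pderiv i (pderiv j (G - f))) * y i * z j = 0) → ∃ c : k, y = c • s

/-- the surface and the curve `G = 0` are smooth at `s` -/
def SmP [Fintype σ] (X : σ → F) (G : MvPolynomial σ k) (s : σ → k) : Prop :=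
  ∀ y : Fin 3 → σ → k, (∀ i, ∀ f : MvPolynomial σ k, aeval X f = 0 ∨ f = G →
    ∑ j, eval s (pderiv j f) * y i j = 0) → ¬ LinearIndependent k y

/-- the curve `G = 0` lies in the smooth part of the surface, it has only nodes -/
def Ndl [Fintype σ] (X : σ → F) (G : MvPolynomial σ k) : Prop :=
  ∀ s : σ → k, s ≠ 0 → (∀ f : MvPolynomial σ k, aeval X f = 0 → eval s f = 0) → eval s G = 0 →
    SmP X G s ∨ Nod X G s

/-- the same, and `Q` vanishes at the nodes -/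
def Ndq [Fintype σ] (X : σ → F) (G Q : MvPolynomial σ k) : Prop :=
  ∀ s : σ → k, s ≠ 0 → (∀ f : MvPolynomial σ k, aeval X f = 0 → eval s f = 0) → eval s G = 0 →
    SmP X G s ∨ (Nod X G s ∧ eval s Q = 0)

/-- `G` is a form in `X` with `Ndl` -/
def NdG [Fintype σ] (X : σ → F) (m : ℕ) (G : F) : Prop :=
  ∃ GP : MvPolynomial σ k, GP.IsHomogeneous m ∧ aeval X GP = G ∧ Ndl X GP

end Geo

/-! ### Statements at the boundaries of the chapters -/

/-- NG2: there is a section of negative twist (helper92) -/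
def T_NG2 : Prop := ∀ δ j0 c0 : ℕ, ∃ N : ℕ,
  ∀ (k F : Type) [Field k] [IsAlgClosed k] [CharZero k] [Field F] [Algebra k F]
  (u : Fin 3 → F) (dd : Fin 3 → Derivation k F F) (J : MvPolynomial (Fin 3) k),
  Sfc u dd δ j0 c0 J → ∀ (m : ℕ) (G : F) (sg : ℕ) (S : MvPolynomial (Fin 3) k),
  N * (sg + 1) ≤ m → Crs u dd m G sg S →
  ∃ (n t : ℕ) (V : Q2 F), 2 * n * (j0 + sg) < t ∧ V ≠ 0 ∧ V ∈ E u dd J m G n (-(t : ℤ))

/-- MF2: not all sections are divisible by high powers of a polynomial of weight at least 4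
(helper92) -/
def T_MF2 : Prop := ∀ δ j0 c0 : ℕ, ∃ N : ℕ,
  ∀ (k F : Type) [Field k] [IsAlgClosed k] [CharZero k] [Field F] [Algebra k F]
  (u : Fin 3 → F) (dd : Fin 3 → Derivation k F F) (J : MvPolynomial (Fin 3) k),
  Sfc u dd δ j0 c0 J → ∀ (m : ℕ) (G : F) (sg : ℕ) (S : MvPolynomial (Fin 3) k),
  N * (sg + 1) ≤ m → Crs u dd m G sg S → ∀ (w : ℕ) (τ : ℤ) (P : Q2 F),
  4 ≤ w → P ≠ 0 → 1 ≤ P.natDegree → Tw u dd w τ P → ∃ n : ℕ, 1 ≤ n ∧ ¬ Mls u dd J j0 m sg G n P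

/-- MT2: the same for weight 3, if a coefficient in the chart has denominators of degree at least
`m / q` (helper92) -/
def T_MT2 : Prop := ∀ δ j0 c0 q : ℕ, 1 ≤ q → ∃ N : ℕ,
  ∀ (k F : Type) [Field k] [IsAlgClosed k] [CharZero k] [Field F] [Algebra k F]
  (u : Fin 3 → F) (dd : Fin 3 → Derivation k F F) (J : MvPolynomial (Fin 3) k),
  Sfc u dd δ j0 c0 J → ∀ (m : ℕ) (G : F) (sg : ℕ) (S : MvPolynomial (Fin 3) k),
  N * (sg + 1) ≤ m → Crs u dd m G sg S → ∀ P : Q2 F,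
  P.coeff 1 = 1 → Tw u dd 3 3 P →
  (∃ (j : ℕ) (a : Fin 3 →₀ ℕ), ∀ (h : ℕ) (H : MvPolynomial (Fin 3) k), q * h < m →
    H.IsHomogeneous h → H ≠ 0 →
    ¬ Itg k u (aeval u H * (((Ps u dd J m G P).coeff j).coeff a / G))) →
  ∃ n : ℕ, 1 ≤ n ∧ ¬ Mls u dd J j0 m sg G n P

/-- CN: weight 3 and small denominators: a connection with the solution `G = 0` -/
def T_CO2 : Prop := ∀ δ j0 c0 ε : ℕ, ∃ q N : ℕ, 1 ≤ q ∧
  ∀ (k F : Type) [Field k] [IsAlgClosed k] [CharZero k] [Field F] [Algebra k F]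
  (u : Fin 3 → F) (dd : Fin 3 → Derivation k F F) (J : MvPolynomial (Fin 3) k),
  Sfc u dd δ j0 c0 J → ∀ (m : ℕ) (G : F) (sg : ℕ) (S : MvPolynomial (Fin 3) k),
  N * (sg + 1) ≤ m → Crs u dd m G sg S → ∀ P : Q2 F,
  P.coeff 1 = 1 → Tw u dd 3 3 P →
  (∀ (j : ℕ) (a : Fin 3 →₀ ℕ), ∃ (h : ℕ) (H : MvPolynomial (Fin 3) k), q * h < m ∧
    H.IsHomogeneous h ∧ H ≠ 0 ∧
    Itg k u (aeval u H * (((Ps u dd J m G P).coeff j).coeff a / G))) →
  ∃ (α : ℕ) (A : MvPolynomial (Fin 3) k) (b : MvPolynomial (Fin 3) F), ε * α ≤ m ∧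
    Cnn u dd J m G α A b ∧ S ∣ A ∧
    ∀ (K : Type) [Field K] [Algebra k K] (φ : Bb k u →ₐ[k] K) (D : Derivation k K K)
    (x : Fin 3 → K) (W : Q2 K) (b0 : MvPolynomial (Fin 3) (Bb k u)),
    (∀ (i : Fin 3) (b : Bb k u), (b : F) = u i → φ b = x i) → (∃ j, x j = 1) →
    VQ u φ P W → evc D x W = 0 → map ((Bb k u).val : Bb k u →+* F) b0 = b →
    aeval x A * dt x (fun i => D (x i)) (fun i => D (D (x i))) +
      eval₂ (φ : Bb k u →+* K) (fun i => D (x i)) b0 = 0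

/-- EF2: the fundamental inequality for a curve: `V = P ^ r * N` -/
def T_EF2 : Prop := ∀ (k F : Type) [Field k] [IsAlgClosed k] [CharZero k] [Field F] [Algebra k F]
  (u : Fin 3 → F) (dd : Fin 3 → Derivation k F F) (δ j0 c0 : ℕ) (J : MvPolynomial (Fin 3) k),
  Sfc u dd δ j0 c0 J → ∀ (m : ℕ) (G : F) (sg : ℕ) (S : MvPolynomial (Fin 3) k),
  4 ≤ m → Crs u dd m G sg S →
  ∀ (K : Type) [Field K] [Algebra k K] [Algebra.EssFiniteType k K], Algebra.trdeg k K = 1 →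
  ∀ (D : Derivation k K K), D ≠ 0 → ∀ (φ : Bb k u →ₐ[k] K) (x : Fin 3 → K) (g : K)
  (Sp : Finset (DV k K)), Crt u J m G sg S φ x g Sp →
  ∀ (n t r w n' : ℕ) (τ τ' : ℤ) (V P N : Q2 F) (PK NK : Q2 K),
  V ∈ E u dd J m G n (-(t : ℤ)) → V ≠ 0 → V = P ^ r * N → 1 ≤ P.natDegree → Tw u dd w τ P →
  Tw u dd n' τ' N → VQ u φ P PK → VQ u φ N NK → evc D x NK ≠ 0 →
  evc D x (Polynomial.derivative PK) ≠ 0 →
  ((t : ℤ) - 2 * n * (j0 + sg) - r * (m - 3)) * deg k x ≤ (n - 3 * r) * (canDeg D + Sp.card)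

/-- FO2: first order equations -/
def T_FO2 : Prop := ∀ (k F : Type) [Field k] [IsAlgClosed k] [CharZero k] [Field F] [Algebra k F]
  (u : Fin 3 → F) (dd : Fin 3 → Derivation k F F) (δ j0 c0 : ℕ) (J : MvPolynomial (Fin 3) k),
  Sfc u dd δ j0 c0 J → ∀ (m : ℕ) (G : F) (sg : ℕ) (S : MvPolynomial (Fin 3) k), sg < m →
  Crw u dd m G → S.IsHomogeneous sg → ∀ c : Q2 F, FE u dd c →
  ∃ C : ℕ, ∀ (K : Type) [Field K] [Algebra k K] [Algebra.EssFiniteType k K],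
  Algebra.trdeg k K = 1 → ∀ (D : Derivation k K K), D ≠ 0 → ∀ (φ : Bb k u →ₐ[k] K)
  (x : Fin 3 → K) (g : K) (Sp : Finset (DV k K)), Prm φ → Crt u J m G sg S φ x g Sp →
  ∀ W : Q2 K, VQ u φ c W → evc D x W = 0 →
  (∃ (e : ℕ) (Φ : MvPolynomial (Fin 3) k), e ≤ C ∧ Φ ≠ 0 ∧ Φ.IsHomogeneous e ∧ aeval x Φ = 0) ∨
  deg k x ≤ C * Sp.card

/-- LO2: solutions of connections (helper84) -/
def T_LO2 : Prop := ∃ κ : ℕ, ∀ (k F σ : Type) [Field k] [IsAlgClosed k] [CharZero k] [Field F]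
  [Algebra k F] [Fintype σ] [DecidableEq σ] (X : σ → F) (u : Fin 3 → F)
  (dd : Fin 3 → Derivation k F F) (δ j0 c0 : ℕ) (J : MvPolynomial (Fin 3) k),
  Sfc u dd δ j0 c0 J → Pool.Agent.H84.SF.Cor X u dd J →
  ∀ (m : ℕ) (G : F) (sg : ℕ) (S : MvPolynomial (Fin 3) k), 2 ≤ m → Crs u dd m G sg S →
  NdG (k := k) X m G →
  ∀ (α : ℕ) (A : MvPolynomial (Fin 3) k) (b : MvPolynomial (Fin 3) F), Cnn u dd J m G α A b →
  S ∣ A → κ * (α + j0 + sg) < m → ∃ C : ℕ,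
  ∀ (K : Type) [Field K] [Algebra k K] [Algebra.EssFiniteType k K],
  Algebra.trdeg k K = 1 → ∀ (D : Derivation k K K), D ≠ 0 → ∀ (φ : Bb k u →ₐ[k] K)
  (x : Fin 3 → K) (g : K) (Sp : Finset (DV k K)), Prm φ → Crt u J m G sg S φ x g Sp →
  ∀ b0 : MvPolynomial (Fin 3) (Bb k u), map ((Bb k u).val : Bb k u →+* F) b0 = b →
  aeval x A * dt x (fun i => D (x i)) (fun i => D (D (x i))) +
    eval₂ (φ : Bb k u →+* K) (fun i => D (x i)) b0 = 0 →
  (∃ (e : ℕ) (Φ : MvPolynomial (Fin 3) k), e ≤ C ∧ Φ ≠ 0 ∧ Φ.IsHomogeneous e ∧ aeval x Φ = 0) ∨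
  deg k x ≤ C * Sp.card

/-- MX2: the theorem for surfaces with a projection and coordinates -/
def T_MX2 : Prop := ∀ δ j0 c0 : ℕ, ∃ N : ℕ,
  ∀ (k F σ : Type) [Field k] [IsAlgClosed k] [CharZero k] [Field F] [Algebra k F] [Fintype σ]
  [DecidableEq σ] (X : σ → F) (u : Fin 3 → F) (dd : Fin 3 → Derivation k F F)
  (J : MvPolynomial (Fin 3) k), Sfc u dd δ j0 c0 J → Pool.Agent.H84.SF.Cor X u dd J →
  ∀ (m : ℕ) (G : F) (sg : ℕ) (S : MvPolynomial (Fin 3) k), N * (sg + 1) ≤ m →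
  Crs u dd m G sg S → NdG (k := k) X m G → ∃ B : ℕ,
  ∀ (K : Type) [Field K] [Algebra k K] [Algebra.EssFiniteType k K], Algebra.trdeg k K = 1 →
  ∀ (D : Derivation k K K), D ≠ 0 → ∀ (φ : Bb k u →ₐ[k] K)
  (x : Fin 3 → K) (g : K) (Sp : Finset (DV k K)), Crt u J m G sg S φ x g Sp →
  ∃ (e : ℕ) (Φ : MvPolynomial (Fin 3) k), (e : ℤ) ≤ B * max 1 (canDeg D + Sp.card) ∧ Φ ≠ 0 ∧
    Φ.IsHomogeneous e ∧ aeval x Φ = 0

/-- CRQ: from the geometry to the data: `Q` is a form which vanishes at the nodes -/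
def T_CRQ : Prop := ∀ (k F σ : Type) [Field k] [IsAlgClosed k] [CharZero k] [Field F]
  [Algebra k F] [Fintype σ] (X : σ → F), Pool.Agent.H17.SD.Cone k X → ∀ (u : Fin 3 → F) (θ : F)
  (dd : Fin 3 → Derivation k F F) (δ j0 c0 : ℕ) (J : MvPolynomial (Fin 3) k),
  Sfc u dd δ j0 c0 J → Pool.Agent.H17.SD.Prj X u θ dd J → ∀ (m : ℕ) (G : MvPolynomial σ k)
  (s : ℕ) (Q : MvPolynomial σ k), 1 ≤ m → G.IsHomogeneous m → aeval X G ≠ 0 →
  Q.IsHomogeneous s → aeval X Q ≠ 0 → Ndq X G Q →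
  ∃ (S : MvPolynomial (Fin 3) k) (b : F), Crs u dd m (aeval X G) (δ * s) S ∧ Itg k u b ∧
    aeval u S = aeval X Q * b

end Pool.Agent.H3.S2
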